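import Pool.Agent.H6.NE.Stm1

/-!
# NE: statements of the parts, the chain of normal subgroups.
-/

set_option autoImplicit false

open Finset

namespace H6.NE

/-- STG (one stage).  `K` acts on `V` with all products of `p - 1` factors `k - 1` zero.
`JE * JE ≤ JE` from `(g-1)(h-1) = (gh-1) - (g-1) - (h-1)`; elements of `JE ^ m` map `V` into `JV m`
(and `JV j` into `JV (j+m)`), so `JE^(p-1) = 0`.  Then use EX and LH1 for `S = Module.End V`,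
`J = JE ρ K`, `H = UK ρ K`, `c = p - 2`. (4) `JE ρ K1 ≤ JE ρ K` and uniqueness of logarithms. (6): `ex y v = v` iff
`y v = 0` because `ex y - 1 = y * unit` with commuting factors. Uses EX, LH1. -/
def S_STG : Prop := ∀ (p N : ℕ) [Fact p.Prime], 0 < N → 2 < p → ∀ (G V : Type) [Group G]
  [AddCommGroup V] [Module (ZMod (p ^ N)) V] (ρ : Representation (ZMod (p ^ N)) G V)
  (K : Subgroup G), JV ρ K (p - 1) = ⊥ →
  Uni p N (p - 2) (JE ρ K) (UK ρ K) ∧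
  (∀ y ∈ LG ρ K, y ∈ JE ρ K ∧ ∃ k ∈ K, ex p N y = ρ k) ∧
  (∀ k ∈ K, ∃ y ∈ LG ρ K, ex p N y = ρ k) ∧
  (∀ y ∈ LG ρ K, ∀ z ∈ LG ρ K, ex p N y = ex p N z → y = z) ∧
  (∀ K1 ≤ K, LG ρ K1 ≤ LG ρ K ∧ ∀ y ∈ LG ρ K, ∀ k ∈ K1, ex p N y = ρ k → y ∈ LG ρ K1) ∧
  (∀ y ∈ LG ρ K, ∀ v : V, y v = 0 ↔ ex p N y v = v) ∧
  (∀ y ∈ LG ρ K, ∀ j, ∀ v ∈ JV ρ K j, y v ∈ JV ρ K (j + 1))

/-- STC (counting at one stage).  The map `K → LG ρ K` (logarithm of `ρ k`) is onto, its fibres are the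
cosets of `ker ρ ∩ K`; the preimage of `LG ρ K1` is `K1 (ker ρ ∩ K)`; `SG ρ K v = LG ρ (K ∩ stb v)`.
Uses STG, LEN. -/
def S_STC : Prop := ∀ (p N : ℕ) [Fact p.Prime], 0 < N → 2 < p → ∀ (G V : Type) [Group G] [Finite G]
  [AddCommGroup V] [Module (ZMod (p ^ N)) V] [Finite V] (ρ : Representation (ZMod (p ^ N)) G V)
  (K : Subgroup G), JV ρ K (p - 1) = ⊥ →
  (∀ K1 ≤ K, (∀ k ∈ K, ρ k = 1 → k ∈ K1) →
    ln p (LG ρ K) = ln p (LG ρ K1) + (K1.relIndex K).factorization p) ∧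
  (∀ v, ln p (LG ρ K) = ln p (SG ρ K v) + ((stb ρ v).relIndex K).factorization p) ∧
  (∀ v, ∀ y : LG ρ K, y ∈ SG ρ K v ↔ (y : Module.End (ZMod (p ^ N)) V) ∈ LG ρ (K ⊓ stb ρ v))

/-- RES (functoriality).  `y ∈ LG ρ' K` is in the span `JE` of the `ρ' k - 1`, so it induces `ȳ` on `V` with
`ȳ ∘ π = π ∘ y`, `ȳ ∈ JE ρ K`, `ex ȳ = ρ k` if `ex y = ρ' k`. Onto by uniqueness of logarithms.
`JV ρ K j = π (JV ρ' K j)`. Uses STG, EX. -/
def S_RES : Prop := ∀ (p N : ℕ) [Fact p.Prime], 0 < N → 2 < p → ∀ (G V V' : Type) [Group G]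
  [AddCommGroup V] [Module (ZMod (p ^ N)) V] [AddCommGroup V'] [Module (ZMod (p ^ N)) V']
  (ρ : Representation (ZMod (p ^ N)) G V) (ρ' : Representation (ZMod (p ^ N)) G V')
  (π : V' →ₗ[ZMod (p ^ N)] V), Function.Surjective π → (∀ g v, π (ρ' g v) = ρ g (π v)) →
  ∀ K : Subgroup G, JV ρ' K (p - 1) = ⊥ →
  JV ρ K (p - 1) = ⊥ ∧ ∃ res : LG ρ' K →ₗ[ZMod (p ^ N)] LG ρ K, Function.Surjective res ∧
    (∀ (y : LG ρ' K) (v : V'), π ((y : Module.End (ZMod (p ^ N)) V') v)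
      = ((res y : LG ρ K) : Module.End (ZMod (p ^ N)) V) (π v)) ∧
    (∀ (y : LG ρ' K) (k : G), k ∈ K → ex p N (y : Module.End (ZMod (p ^ N)) V') = ρ' k →
      ex p N ((res y : LG ρ K) : Module.End (ZMod (p ^ N)) V) = ρ k)

/-- NIL: facts on `JV`.  (1) decreasing. (2) monotone in `K`. (3) quotient. (4) stable under `G` for normal
`K`. (5) a finite `p`-group acts unipotently on a finite `p`-primary group: if
`W = JV m = JV (m+1)`, `W ≠ 0`, then `K` acts on `W / pW ≠ 0`... (a non-zero `F_p`-space with a `p`-group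
has a proper submodule with trivial quotient: dual fixed vector), so `JV (m+1) < W`. -/
def S_NIL : Prop := ∀ (p N : ℕ) [Fact p.Prime] (G V : Type) [Group G]
  [AddCommGroup V] [Module (ZMod (p ^ N)) V] (ρ : Representation (ZMod (p ^ N)) G V),
  (∀ (K : Subgroup G) (m n : ℕ), m ≤ n → JV ρ K n ≤ JV ρ K m) ∧
  (∀ (K K' : Subgroup G) (m : ℕ), K' ≤ K → JV ρ K' m ≤ JV ρ K m) ∧
  (∀ (F : Submodule (ZMod (p ^ N)) V) (hF : ∀ g, F ≤ F.comap (ρ g)) (K : Subgroup G) (m : ℕ),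
    JV (qr ρ F hF) K m = (JV ρ K m).map F.mkQ) ∧
  (∀ (K : Subgroup G) (m : ℕ), K.Normal → ∀ g, JV ρ K m ≤ (JV ρ K m).comap (ρ g)) ∧
  (Finite G → Finite V → IsPGroup p G → ∀ (K : Subgroup G) (m : ℕ),
    JV ρ K m ≤ JV ρ K (m + 1) → JV ρ K m = ⊥)

/-- BND: bounds from the orbit sizes.  (1) For `v : V`: `stb ρ v ∩ K ≤ stb (qr) (mkQ v)`, so
`len LG - len SG(mkQ v) = v_p [K : K ∩ stb (mkQ v)] ≤ v_p [K : K ∩ stb v] ≤ v_p [G : stb v] ≤ e`.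
(2),(3) for `u ∈ Gd`, `stb ρ u ≤ K`: `[G : stb u] = [G:K] [K : stb u]` and `v_p` of it is
`≥ v_p [G:K] + len LG - len SG = r`. Uses STC, NIL. -/
def S_BND : Prop := ∀ (p N : ℕ) [Fact p.Prime], 0 < N → 2 < p → ∀ (G V : Type) [Group G] [Finite G]
  [AddCommGroup V] [Module (ZMod (p ^ N)) V] [Finite V] (ρ : Representation (ZMod (p ^ N)) G V)
  (e : ℕ), IsPGroup p G → Orb ρ e → ∀ (K : Subgroup G) (F : Submodule (ZMod (p ^ N)) V)
  (hF : ∀ g, F ≤ F.comap (ρ g)), JV ρ K (p - 1) ≤ F →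
  (∀ v : V, ln p (LG (qr ρ F hF) K) ≤ ln p (SG (qr ρ F hF) K (F.mkQ v)) + e) ∧
  (∀ (Gd : Set V) (r : ℕ), Inv ρ e K F hF Gd r →
    r ≤ e ∧ ∀ u ∈ Gd, r ≤ ((stb ρ u).index).factorization p)

/-- CNT: at most `r` bad nodes.  If `T.card ≤ e + 1` use `cnt` and `len KP ≤ e len SG` (KPU);
otherwise apply this to a subset with `e + 1 > r` elements. Uses KPU, BND. -/
def S_CNT : Prop := ∀ (p N : ℕ) [Fact p.Prime], 0 < N → 2 < p → ∀ (G V : Type) [Group G] [Finite G]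
  [AddCommGroup V] [Module (ZMod (p ^ N)) V] [Finite V] (ρ : Representation (ZMod (p ^ N)) G V)
  (e : ℕ), IsPGroup p G → Orb ρ e → ∀ (K : Subgroup G) (F : Submodule (ZMod (p ^ N)) V)
  (hF : ∀ g, F ≤ F.comap (ρ g)) (Gd : Set V) (r : ℕ), Inv ρ e K F hF Gd r →
  ∀ u ∈ Gd, ∀ (x : V) (T : Finset (ZMod (p ^ N))), Nd T → (∀ s ∈ T, x + s • u ∉ Gd) → T.card ≤ r

/-- NEX: some good element is maximal at the next stage.  PL with `P1 = (· ∈ Gd)` (`r1 = r ≤ e`, CNT),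
`P2 v = Mxx (qr ρ F' hF') K' (mkQ v)` (`r2 = e`: AM with `T2 = ∅` and BND (1)), `2 e ≤ p`.
Uses PL, CNT, AM, BND, NIL, LEN. -/
def S_NEX : Prop := ∀ (p N : ℕ) [Fact p.Prime], 0 < N → ∀ (G V : Type) [Group G] [Finite G]
  [AddCommGroup V] [Module (ZMod (p ^ N)) V] [Finite V] (ρ : Representation (ZMod (p ^ N)) G V)
  (e : ℕ), 2 * e < p → 2 < p → IsPGroup p G → Orb ρ e → ∀ (K : Subgroup G) (F : Submodule (ZMod (p ^ N)) V)
  (hF : ∀ g, F ≤ F.comap (ρ g)) (Gd : Set V) (r : ℕ), Inv ρ e K F hF Gd r →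
  ∀ (K' : Subgroup G) (F' : Submodule (ZMod (p ^ N)) V) (hF' : ∀ g, F' ≤ F'.comap (ρ g)),
  JV ρ K' (p - 1) ≤ F' → ∃ u ∈ Gd, Mxx (qr ρ F' hF') K' (F'.mkQ u)

/-- NRM: the next group is normal, contained in `K`, contains the kernel of `K` on the stage, and good
elements have their stabiliser in it; membership of stabilisers: for a maximal `v` of the stage,
`SG (qr) K v` consists of elements of `LG (qr) (Kn ..)`. (`G` permutes the maximal elements: conjugation by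
`ρ g` maps `LG K` to itself.) Uses STG, STC, NIL. -/
def S_NRM : Prop := ∀ (p N : ℕ) [Fact p.Prime], 0 < N → 2 < p → ∀ (G V : Type) [Group G] [Finite G]
  [AddCommGroup V] [Module (ZMod (p ^ N)) V] [Finite V] (ρ : Representation (ZMod (p ^ N)) G V)
  (K : Subgroup G), K.Normal → JV ρ K (p - 1) = ⊥ →
  (Kn ρ K).Normal ∧ Kn ρ K ≤ K ∧ (∀ k ∈ K, ρ k = 1 → k ∈ Kn ρ K) ∧
  (∀ v, Mxx ρ K v → ∀ k ∈ K, ρ k v = v → k ∈ Kn ρ K) ∧
  (∀ v, Mxx ρ K v → ∀ y : LG ρ K, y ∈ SG ρ K v →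
    (y : Module.End (ZMod (p ^ N)) V) ∈ LG ρ (Kn ρ K))

/-- STEP (counting).  `K' = Kn (qr ρ F hF) K`, `F' ≤ F` with `JV ρ K' (p-1) ≤ F'`, `Gd'` the good elements
that are maximal at the new stage.  This is the field `cnt` of the new invariant: let `T' ⊆ T` be the `s` with
`x + s u ∉ Gd` and `B = T \ T'`; the invariant for `T'` gives
`|T'| + e κ ≤ r + len KP`; MS (with `k = LG (qr F) K`, `k' = LG (qr F') K'`, `π : V/F' → V/F`,
`res` = RES followed by the inclusion `LG (qr F) K' ≤ LG (qr F) K`, range `LG (qr F) K'`; `n = e`; `T0` =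
nodes `i < p` with `x + i u ∈ Gd`, at least `p - r ≥ e` of them by CNT; `T` = all `p` nodes `0..p-1`) gives
`len KP + (e+1) κ' + |B| ≤ len KP' + (e+1) κ + len ker res`. With
`r' = r + κ + len ker res - κ'` this is the claim. And the field `idx`: `len k = len range res +
v_p [K:K']` (STC), `len k' = len ker res + len range res`. Uses MS, RES, STC, STG, NRM, CNT, BND,
NOD, LEN, NIL. -/
def S_STEP : Prop := ∀ (p N : ℕ) [Fact p.Prime], 0 < N → ∀ (G V : Type) [Group G] [Finite G]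
  [AddCommGroup V] [Module (ZMod (p ^ N)) V] [Finite V] (ρ : Representation (ZMod (p ^ N)) G V)
  (e : ℕ), 2 * e < p → 2 < p → IsPGroup p G → Orb ρ e → ∀ (K : Subgroup G) (F : Submodule (ZMod (p ^ N)) V)
  (hF : ∀ g, F ≤ F.comap (ρ g)) (Gd : Set V) (r : ℕ), Inv ρ e K F hF Gd r →
  ∀ (F' : Submodule (ZMod (p ^ N)) V) (hF' : ∀ g, F' ≤ F'.comap (ρ g)), F' ≤ F →
  JV ρ (Kn (qr ρ F hF) K) (p - 1) ≤ F' →
  ∃ r' : ℕ,
    (∀ u ∈ Gd, Mxx (qr ρ F' hF') (Kn (qr ρ F hF) K) (F'.mkQ u) →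
      r' + ln p (SG (qr ρ F' hF') (Kn (qr ρ F hF) K) (F'.mkQ u)) =
        ((Kn (qr ρ F hF) K).index).factorization p
          + ln p (LG (qr ρ F' hF') (Kn (qr ρ F hF) K))) ∧
    (∀ u ∈ Gd, Mxx (qr ρ F' hF') (Kn (qr ρ F hF) K) (F'.mkQ u) →
      ∀ (x : V) (T : Finset (ZMod (p ^ N))), Nd T → T.card ≤ e + 1 →
      (∀ s ∈ T, ¬ (x + s • u ∈ Gd ∧
        Mxx (qr ρ F' hF') (Kn (qr ρ F hF) K) (F'.mkQ (x + s • u)))) →
      T.card + e * ln p (SG (qr ρ F' hF') (Kn (qr ρ F hF) K) (F'.mkQ u)) ≤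
        r' + ln p (KP (bl (qr ρ F' hF') (Kn (qr ρ F hF) K)) (F'.mkQ x) (F'.mkQ u) e))

/-- CST (the step of the chain): the new invariant. Fields: `nor`, `st` from NRM (good `u` are maximal at the old stage, and a
stabiliser of `u` fixes `mkQ u`), `ne` NEX, `mx` by definition, `cnt`, `idx` STEP, `sc` clear.
Uses NRM, NEX, STEP, NIL. -/
def S_CST : Prop := ∀ (p N : ℕ) [Fact p.Prime], 0 < N → ∀ (G V : Type) [Group G] [Finite G]
  [AddCommGroup V] [Module (ZMod (p ^ N)) V] [Finite V] (ρ : Representation (ZMod (p ^ N)) G V)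
  (e : ℕ), 2 * e < p → 2 < p → IsPGroup p G → Orb ρ e → ∀ (K : Subgroup G) (F : Submodule (ZMod (p ^ N)) V)
  (hF : ∀ g, F ≤ F.comap (ρ g)) (Gd : Set V) (r : ℕ), Inv ρ e K F hF Gd r →
  ∀ (F' : Submodule (ZMod (p ^ N)) V) (hF' : ∀ g, F' ≤ F'.comap (ρ g)), F' ≤ F →
  JV ρ (Kn (qr ρ F hF) K) (p - 1) ≤ F' →
  ∃ (Gd' : Set V) (r' : ℕ), Inv ρ e (Kn (qr ρ F hF) K) F' hF' Gd' r'

/-- STA (start): `K = ⊤`, `F = ⊤`, everything good, `r = 0`. (`V / ⊤` and `LG` on it are trivial.) -/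
def S_STA : Prop := ∀ (p N : ℕ) [Fact p.Prime] (G V : Type) [Group G] [Finite G]
  [AddCommGroup V] [Module (ZMod (p ^ N)) V] [Finite V] (ρ : Representation (ZMod (p ^ N)) G V)
  (e : ℕ) (hF : ∀ g, (⊤ : Submodule (ZMod (p ^ N)) V) ≤ (⊤ : Submodule (ZMod (p ^ N)) V).comap (ρ g)),
  Inv ρ e ⊤ ⊤ hF Set.univ 0

/-- CHN: end of the chain.  Start with STA; the next stage of `(K, F)` is
`(Kn .. K, JV ρ (Kn .. K) (p-1))`; from the second stage on `F = JV ρ K (p-1)`; stop when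
`Kn .. K = K`, otherwise the order of `K` drops. Uses STA, CST, NIL, NRM. -/
def S_CHN : Prop := ∀ (p N : ℕ) [Fact p.Prime], 0 < N → ∀ (G V : Type) [Group G] [Finite G]
  [AddCommGroup V] [Module (ZMod (p ^ N)) V] [Finite V] (ρ : Representation (ZMod (p ^ N)) G V)
  (e : ℕ), 2 * e < p → 2 < p → IsPGroup p G → Orb ρ e →
  ∃ (K : Subgroup G) (F : Submodule (ZMod (p ^ N)) V) (hF : ∀ g, F ≤ F.comap (ρ g)) (Gd : Set V)
    (r : ℕ), Inv ρ e K F hF Gd r ∧ F = JV ρ K (p - 1) ∧ Kn (qr ρ F hF) K = K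

/-- MOD (the module theorem).  Take `K, F, Gd, r` from CHN. (1)-(4) from `st`, BND, CNT.  (5): suppose `r < e`.
LAY for `k = LG (qr F) K`, `V / F`, `Vj j = JV (qr F) K j`, `ρ0 = len k - κ ≤ r ≤ e - 1` (`idx`), where
`κ` is the length of `SG` of a maximal element: if `JV (qr F) K e ≠ ⊥` then for `j < e` the subgroup of the
`g ∈ K` acting trivially on `JV j / JV (j+2)` is proper (`JV (j+1) ≠ JV (j+2)` by NIL), so since
`K = Kn` some stabiliser of a maximal `v` is not in it: `ex y = k`, `y v = 0`, `y w ∉ JV (j+2)`; LAY with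
`M = e` gives `e ≤ ρ0 ≤ e - 1`, contradiction.  So `JV ρ K e ≤ F = JV ρ K (p-1) ≤ JV ρ K (e+1)`, so
`JV ρ K e = ⊥` by NIL. Uses CHN, BND, CNT, LAY, NIL, STG, STC, LEN, NRM. -/
def S_MOD : Prop := ∀ (p N : ℕ) [Fact p.Prime], 0 < N → ∀ (G V : Type) [Group G] [Finite G]
  [AddCommGroup V] [Module (ZMod (p ^ N)) V] [Finite V] (ρ : Representation (ZMod (p ^ N)) G V)
  (e : ℕ), 2 * e < p → 2 < p → IsPGroup p G → Orb ρ e →
  ∃ (K : Subgroup G) (Gd : Set V) (r : ℕ), K.Normal ∧ Gd.Nonempty ∧ r ≤ e ∧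
    (∀ a : ZMod (p ^ N), IsUnit a → ∀ v ∈ Gd, a • v ∈ Gd) ∧
    (∀ u ∈ Gd, ∀ g, ρ g u = u → g ∈ K) ∧
    (∀ u ∈ Gd, r ≤ ((stb ρ u).index).factorization p) ∧
    (∀ u ∈ Gd, ∀ (x : V) (T : Finset (ZMod (p ^ N))), Nd T →
      (∀ s ∈ T, x + s • u ∉ Gd) → T.card ≤ r) ∧
    (r < e → JV ρ K e = ⊥)

end H6.NE
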