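import Pool.Agent.H6.NE.Stm1

/-!
# NE: statements of the parts: Lazard, Kirillov, representation theory, final theorem.
-/

set_option autoImplicit false

open Finset

namespace H6.NE

/-- GRC (commutator calculus), `lcs i = lc Γ i` (`lc Γ 0 = ⊤`). (1) `[lcs i, lcs j] ≤ lcs (i+j+1)`
(induction, three subgroups lemma).  (2),(3) bilinearity modulo the next term. (4) Hall-Witt. -/
def S_GRC : Prop := ∀ (Γ : Type) [Group Γ],
  (∀ i j : ℕ, ∀ a ∈ lc Γ i, ∀ b ∈ lc Γ j,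
    cm a b ∈ lc Γ (i + j + 1)) ∧
  (∀ i j : ℕ, ∀ a ∈ lc Γ i, ∀ a' ∈ lc Γ i,
    ∀ b ∈ lc Γ j,
    (cm a b * cm a' b)⁻¹ * cm (a * a') b ∈ lc Γ (i + j + 2)) ∧
  (∀ i j : ℕ, ∀ a ∈ lc Γ i, ∀ b ∈ lc Γ j,
    ∀ b' ∈ lc Γ j,
    (cm a b * cm a b')⁻¹ * cm a (b * b') ∈ lc Γ (i + j + 2)) ∧
  (∀ i j : ℕ, ∀ g ∈ lc Γ i, ∀ b ∈ lc Γ j, ∀ f : Γ,
    (cm (cm g b) f * (cm (cm g f) b)⁻¹)⁻¹ * cm g (cm b f) ∈ lc Γ (i + j + 3))

/-- GR (graded Lie structure without casts).  `Gr = ⨁_i Additive (lcs i / lcs (i+1))`, `ι i g` the class of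
`g ∈ lcs i` (`0` for `g ∉ lcs i`), `A l b` the operator `class of g ∈ lcs i ↦ class of [g,b] ∈ lcs (i+l+1)`
(for `b ∈ lcs l`).  Generated by the `ι i g`. Uses GRC. -/
def S_GR : Prop := ∀ (Γ : Type) [Group Γ], ∃ (Gr : Type) (_ : AddCommGroup Gr) (ι : ℕ → Γ → Gr)
  (A : ℕ → Γ → Gr →+ Gr),
  (∀ i, ∀ g ∈ lc Γ i, ∀ h ∈ lc Γ i, ι i (g * h) = ι i g + ι i h) ∧
  (∀ i, ∀ g ∈ lc Γ i, (ι i g = 0 ↔ g ∈ lc Γ (i + 1))) ∧
  (∀ i l, ∀ g ∈ lc Γ i, ∀ b ∈ lc Γ l,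
    A l b (ι i g) = ι (i + l + 1) (cm g b)) ∧
  (∀ l, ∀ b ∈ lc Γ l, ∀ b' ∈ lc Γ l,
    A l (b * b') = A l b + A l b') ∧
  (∀ l, ∀ b ∈ lc Γ l, ∀ f : Γ, ∀ v,
    A (l + 1) (cm b f) v = A 0 f (A l b v) - A l b (A 0 f v))

/-- FR (truncated free algebra).  `𝓦` = functions from the words (lists over `X`) of length `≤ c` to
`R`, `S = Module.End 𝓦`, `ξ x` = left concatenation with `x` (`0` on words of length `c`), `J` = span of the operators
of the non-empty words, `cf w s` = coefficient at `w` of `s(empty word)`. -/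
def S_FR : Prop := ∀ (p N c : ℕ) [Fact p.Prime] (X : Type) [Finite X], ∃ (S : Type) (_ : Ring S)
  (_ : Algebra (ZMod (p ^ N)) S) (_ : Finite S) (J : Submodule (ZMod (p ^ N)) S) (ξ : X → S)
  (cf : List X → S →ₗ[ZMod (p ^ N)] ZMod (p ^ N)), J * J ≤ J ∧ J ^ (c + 1) = ⊥ ∧
  (∀ x, ξ x ∈ J) ∧
  (∀ j, 0 < j → ∀ s ∈ J ^ (j + 1), ∀ w : List X, w.length = j → cf w s = 0) ∧
  (∀ j, 0 < j → ∀ s ∈ J ^ j, (∀ w : List X, w.length = j → cf w s = 0) → s ∈ J ^ (j + 1)) ∧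
  (∀ i j, 0 < i → 0 < j → i + j ≤ c → ∀ s ∈ J ^ i, ∀ t ∈ J ^ j, ∀ v w : List X, v.length = i →
    w.length = j → cf (v ++ w) (s * t) = cf v s * cf w t) ∧
  (∀ x, 0 < c → cf [x] (ξ x) = 1) ∧ (∀ x y, x ≠ y → cf [x] (ξ y) = 0)

/-- LZ (Lazard).  A finite `p`-group `K` of class `≤ c < p` is a quotient of a group `F` of unipotent
elements.  FR with `X = K`; `F1 ≤ Sˣ × K` generated by the `f_k = (1 + ξ k, k)`, of exponent dividing `p^N`
(`u^(p^N) = 1` for `u ∈ 1 + J`, binomial coefficients) and with `lcs F1 c = ⊥` (both factors).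
It suffices: the projection `F1 → Sˣ` is injective.  Gr, ι, A from GR for `Γ = F1` (the subgroup generated by the
`ι`'s is killed by `p^N`).  For a word `w = [k_1..k_l]` put `A_w = A 0 f_(k_l) ∘ ... ∘ A 0 f_(k_1)`, and for
`b ∈ lcs l` write `b̂ = b.1 - 1 ∈ J^(l+1)`.
(A) for `b ∈ lcs l`: `A l b = ∑_{|w|=l+1} cf w b̂ • A_w` on all `ι i g`; by induction on `l`, both sides
additive in `b`, `lcs l` is generated modulo `lcs (l+1)` (where both sides vanish) by the `f_k` (`l = 0`) resp. the `[b', f_k]`,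
with `([b',f_k])^ = b̂' ξ_k - ξ_k b̂'` mod `J^(l+2)`; GR (5).
(B) for `b ∈ lcs l`: `∑_{|w|=l+1} cf w b̂ • D_w = (l+1) • ι l b`, where
`D_(k :: v) = A_v (ι 0 f_k)`; same induction, using (A) with `v = ι 0 f_k` for the term `ξ_k b̂'`.
So `b̂ ∈ J^(l+2)` implies `(l+1) ι l b = 0`, `ι l b = 0` (`l + 1 ≤ c < p`), `b ∈ lcs (l+1)`; if `b.1 = 1` this
gives `b ∈ lcs c = 1`. Uses GR, GRC, FR. -/
def S_LZ : Prop := ∀ (p N c : ℕ) [Fact p.Prime], 0 < c → c < p → ∀ (K : Type) [Group K] [Finite K],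
  lc K c = ⊥ → Nat.card K ∣ p ^ N →
  ∃ (S : Type) (_ : Ring S) (_ : Algebra (ZMod (p ^ N)) S) (J : Submodule (ZMod (p ^ N)) S)
    (F : Subgroup Sˣ) (π : F →* K), Finite F ∧ Uni p N c J F ∧ Function.Surjective π

/-- INV (invariant functionals are characters).  `f` additive on `L = LHm H`, invariant under conjugation by `H`;
then `f (log (g h)) = f (log g) + f (log h)`.  Induction on `|H|`.  `H` abelian: logarithms commute, EX.
Otherwise for `g ∈ H` the subgroup `N_g = <g, [H,H]>` is proper (`H / [H,H]` is not cyclic) so the claim holds for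
it and for `[H,H]`; `f (log [g,h]) = f (log g) + f (log (h g⁻¹ h⁻¹)) = 0` in `N_g`, so `f∘log = 0` on `[H,H]`;
TT: `ex x ex y = ex (x+y) d`, `d ∈ [H,H]`; apply the claim in `N_g`, `g = ex (x+y)`.
(`H` is a `p`-group: `h^(p^N) = 1`, EX.) Uses EX, TT, LH1. -/
def S_INV : Prop := ∀ (p N c : ℕ) [Fact p.Prime], 0 < N → ∀ (S : Type) [Ring S]
  [Algebra (ZMod (p ^ N)) S] (J : Submodule (ZMod (p ^ N)) S) (H : Subgroup Sˣ), Finite H →
  Uni p N c J H → ∀ f : S → ZMod (p ^ N),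
  (∀ x ∈ LHm p N J H, ∀ y ∈ LHm p N J H, f (x + y) = f x + f y) →
  (∀ x ∈ LHm p N J H, ∀ h ∈ H, f ((h : S) * x * ((h⁻¹ : Sˣ) : S)) = f x) →
  ∀ x ∈ LHm p N J H, ∀ y ∈ LHm p N J H, ∀ z ∈ LHm p N J H,
    ex p N z = ex p N x * ex p N y → f z = f x + f y

/-- RAD (stabiliser = exp of the radical).  `Ad(ex x) = exp(ad x)`: on `L` (finite), `ad x = l_x - r_x` with `l_x, r_x`
commuting, `(ad x)^i y ∈ J^(i+1)`, so `exp(ad x) y = ∑_{i<p} (ad x)^i y / i!`, and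
`exp(ad x) - 1 = ad x ∘ unit = unit ∘ ad x` on `L`.  So `f ∘ (exp(∓ad x) - 1) = 0 ↔ f ∘ ad x = 0`.
(2) `RadS f` is the underlying set of a submodule `Ra` of `L`. (3) the form is alternating and non-degenerate on
`L / Ra`, so `|L / Ra|` is a square. (`R`-valued alternating forms: split off hyperbolic planes, or
`|X| = |Y| |X / Y|`, `Y = Y^⊥` maximal isotropic.) Uses EX, LH1, LEN, SQF. -/
def S_RAD : Prop := ∀ (p N c : ℕ) [Fact p.Prime], 0 < N → ∀ (S : Type) [Ring S]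
  [Algebra (ZMod (p ^ N)) S] (J : Submodule (ZMod (p ^ N)) S) (H : Subgroup Sˣ), Finite H →
  Uni p N c J H → ∀ f : LHm p N J H →ₗ[ZMod (p ^ N)] ZMod (p ^ N),
  (∀ x ∈ LHm p N J H, ∀ h ∈ H, (h : S) = ex p N x →
    ((∀ y ∈ LHm p N J H, ap f (((h⁻¹ : Sˣ) : S) * y * (h : S)) = ap f y) ↔ x ∈ RadS f)) ∧
  (∃ Ra : Submodule (ZMod (p ^ N)) S, (Ra : Set S) = RadS f) ∧
  (∃ m : ℕ, m ^ 2 * Nat.card (RadS f) = Nat.card (LHm p N J H))

/-- KSY (index `p`).  `M ≤ H` of index `p` containing the stabiliser of `f` (i.e. `RadS f ⊆ LHm M`), `g = f|_M`.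
(1) `|Rad g| = p |Rad f|`: `Rad g = L_M^⊥ ∩ L_M`, and `L_M^⊥ / Rad f` has order `p = |L / L_M|` (non-degenerate form on
`L / Rad f`), it is cyclic generated by `v`, and `v ∈ (L_M^⊥)^⊥ = L_M` as `B(v,v) = 0`.
(2) if `f' = f` on `L_M` then `f' = f ∘ Ad(h)⁻¹` for some `h ∈ M`: `ex (Rad g) ≤ M` (RAD for `M`) acts on the `p`
extensions of `g` to `L`, the stabiliser of `f` is `ex (Rad f)` of index `p`, so the orbit is everything.
Uses EX, LH1, RAD, LEN, SQF. -/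
def S_KSY : Prop := ∀ (p N c : ℕ) [Fact p.Prime], 0 < N → ∀ (S : Type) [Ring S]
  [Algebra (ZMod (p ^ N)) S] (J : Submodule (ZMod (p ^ N)) S) (H M : Subgroup Sˣ), Finite H →
  Uni p N c J H → M ≤ H → M.relIndex H = p →
  ∀ (f : LHm p N J H →ₗ[ZMod (p ^ N)] ZMod (p ^ N)) (g : LHm p N J M →ₗ[ZMod (p ^ N)] ZMod (p ^ N)),
  (∀ x ∈ LHm p N J M, ap g x = ap f x) → (∀ x ∈ RadS f, x ∈ LHm p N J M) →
  Nat.card (RadS g) = p * Nat.card (RadS f) ∧
  ∀ f' : LHm p N J H →ₗ[ZMod (p ^ N)] ZMod (p ^ N), (∀ x ∈ LHm p N J M, ap f' x = ap f x) →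
    ∃ h ∈ M, ∀ y ∈ LHm p N J H, ap f' y = ap f (((h⁻¹ : Sˣ) : S) * y * (h : S))

/-- FOU (Fourier analysis on a finite module with a group of automorphisms).  `θ_f(x) = ∑_h ψ(f(h x))`.
(1) `∑_x θ_f(x) conj θ_g(x) = |L| #{(h,h') : f∘h = g∘h'}`. (2) completeness: Fourier inversion and averaging over `H`.
(3) number of functionals. (4) restriction of functionals to submodules is onto. (5) functionals separate.
(`ZMod (p^N)` is an injective module over itself; `ψ` is primitive.) -/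
def S_FOU : Prop := ∀ (p N : ℕ) [Fact p.Prime] [NeZero (p ^ N)] (L : Type) [AddCommGroup L]
  [Module (ZMod (p ^ N)) L] [Fintype L],
  (∀ (H : Type) [Group H] [Fintype H] (act : Representation (ZMod (p ^ N)) H L),
    (∀ f g : L →ₗ[ZMod (p ^ N)] ZMod (p ^ N),
      ∑ x : L, (∑ h : H, (ZMod.stdAddChar (N := p ^ N) (f (act h x)) : ℂ)) *
        (starRingEnd ℂ) (∑ h : H, (ZMod.stdAddChar (N := p ^ N) (g (act h x)) : ℂ)) =
      (Fintype.card L : ℂ) * (Nat.card {q : H × H // ∀ x, f (act q.1 x) = g (act q.2 x)} : ℂ)) ∧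
    (∀ F : L → ℂ, (∀ h x, F (act h x) = F x) →
      (∀ f : L →ₗ[ZMod (p ^ N)] ZMod (p ^ N),
        ∑ x : L, F x * (starRingEnd ℂ) (∑ h : H, (ZMod.stdAddChar (N := p ^ N) (f (act h x)) : ℂ)) = 0) →
      ∀ x, F x = 0)) ∧
  Nat.card (L →ₗ[ZMod (p ^ N)] ZMod (p ^ N)) = Fintype.card L ∧
  (∀ (L1 : Submodule (ZMod (p ^ N)) L) (g : L1 →ₗ[ZMod (p ^ N)] ZMod (p ^ N)),
    ∃ f : L →ₗ[ZMod (p ^ N)] ZMod (p ^ N), ∀ x : L1, f x = g x) ∧
  (∀ x : L, x ≠ 0 → ∃ f : L →ₗ[ZMod (p ^ N)] ZMod (p ^ N), f x ≠ 0) ∧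
  (∀ t : ZMod (p ^ N), (ZMod.stdAddChar (N := p ^ N) t : ℂ) = 1 → t = 0) ∧
  (∀ f g : L →ₗ[ZMod (p ^ N)] ZMod (p ^ N),
    ∑ x : L, (ZMod.stdAddChar (N := p ^ N) (f x - g x) : ℂ) = if f = g then (Fintype.card L : ℂ) else 0)

/-- CH0 (characters of a finite group): (1) orthogonality; (2) every character is a sum of irreducible ones;
(3) linear characters are irreducible; (4) the regular character; (5) the character determines the element acting
trivially (`trace = dim` iff identity, eigenvalues are roots of unity).  (6) degree. (7) conjugation invariance. -/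
def S_CH0 : Prop := ∀ (G : Type) [Group G] [Fintype G],
  (∀ χ χ' : G → ℂ, IsIrr χ → IsIrr χ' →
    ((χ = χ' → ∑ g : G, χ g * (starRingEnd ℂ) (χ' g) = Fintype.card G) ∧
     (χ ≠ χ' → ∑ g : G, χ g * (starRingEnd ℂ) (χ' g) = 0))) ∧
  (∀ (W : Type) [AddCommGroup W] [Module ℂ W] [FiniteDimensional ℂ W]
    (rep : Representation ℂ G W), ∃ (n : ℕ) (c : Fin n → G → ℂ), (∀ i, IsIrr (c i)) ∧
      ∀ g, chr rep g = ∑ i, c i g) ∧
  (∀ t : G → ℂ, t 1 = 1 → (∀ g h, t (g * h) = t g * t h) → IsIrr t) ∧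
  (∃ (n : ℕ) (c : Fin n → G → ℂ), (∀ i, IsIrr (c i)) ∧
      ∑ i, c i 1 = Fintype.card G ∧ ∀ g, g ≠ 1 → ∑ i, c i g = 0) ∧
  (∀ (W : Type) [AddCommGroup W] [Module ℂ W] [FiniteDimensional ℂ W]
    (rep : Representation ℂ G W), chr rep 1 = (Module.finrank ℂ W : ℂ) ∧
    (∀ g h, chr rep (h * g * h⁻¹) = chr rep g) ∧
    ∀ g, chr rep g = (Module.finrank ℂ W : ℂ) → rep g = 1)

/-- KCH (Kirillov).  Irreducible characters of `H` = the functions `χ_f`, `f ∈ L^*`.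
Induction on `|H|`.  `F(x) = χ(ex x)` for an irreducible character `χ = chr W`, `act h x = h x h⁻¹` (so that
`θ_f(x) = ∑_h ψ(ap f (h x h⁻¹)) = ∑_h ψ(ap f (h⁻¹ x h))`, FOU), `m_f^2 = |L : Rad f|` (RAD), `χ_f(ex x) = (m_f / |H|) θ_f(x)`.
`(χ_f, χ_f') = 1` if `f' ∈ H f` and `0` otherwise (FOU 1, RAD 1). `c_f = (χ, χ_f)`.
* `f` invariant (`Rad f = L`): `χ_f` is linear (INV), so irreducible and `c_f ∈ {0,1}`.
* otherwise choose a maximal subgroup `M` of `H` containing the stabiliser `ex (Rad f)` (a proper subgroup), index `p`,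
  `g = f|_M`. By induction `χ_g` is an irreducible character of `M`, so `(χ|_M, χ_g)` is a natural number.
  It equals `c_f`: by completeness (FOU 2) `χ = ∑_O c_O χ_O` over orbits `O`;
  `(χ_f'|_M, χ_g) ≠ 0` only if some `f'∘Ad(h)⁻¹` agrees with `f` on `L_M`, i.e. `f' ∈ H f` (KSY 2), and
  `(χ_f|_M, χ_g) = (1/|L_M|) (m_f / |H|) (m_g / |M|) |L_M| #{(h,h') ∈ H × M : f h = g h' on L_M} = 1`
  by KSY (`m_g = m_f / p`, the number of pairs is `|M| |Stab_H f| p`).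
* so all `c_O` are natural numbers and `∑ |c_O|^2 = (χ,χ) = 1`: `χ = χ_O` for one orbit. (A)
* (B): `∑_i c_i = regular character` has scalar product `χ_f(1) ≠ 0` with `χ_f`, so some `c_i = χ_f`.
Uses EX, LH1, INV, RAD, KSY, FOU, CH0. -/
def S_KCH : Prop := ∀ (p N c : ℕ) [Fact p.Prime] [NeZero (p ^ N)], 0 < N → 2 < p → ∀ (S : Type) [Ring S]
  [Algebra (ZMod (p ^ N)) S] (J : Submodule (ZMod (p ^ N)) S) (H : Subgroup Sˣ) [Fintype H],
  Uni p N c J H →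
  (∀ (W : Type) [AddCommGroup W] [Module ℂ W] [FiniteDimensional ℂ W] (rep : Representation ℂ H W),
    rep.IsIrreducible → ∃ f : LHm p N J H →ₗ[ZMod (p ^ N)] ZMod (p ^ N),
      CF J H f (Module.finrank ℂ W) (chr rep)) ∧
  (∀ f : LHm p N J H →ₗ[ZMod (p ^ N)] ZMod (p ^ N),
    ∃ (W : Type) (_ : AddCommGroup W) (_ : Module ℂ W) (_ : FiniteDimensional ℂ W)
      (rep : Representation ℂ H W), rep.IsIrreducible ∧ CF J H f (Module.finrank ℂ W) (chr rep))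

/-- KIR (the black box).  From LZ: `π : F → K`, `Q = ker π`, `L = LHm F`, `q = LHm Q` an ideal (LH2), `𝔎 = L / q`,
`β` the commutator, `lgA a` = class of the logarithm of any lift of `a`
(well defined and injective by LH2 (1); additive: TT for the preimage `F_A` of `A` whose commutator subgroup is in `Q`).
(i) `f` pulled back to `L`; KCH (B) gives `W` for `F`; `χ(r) = χ(1)` for `r ∈ Q` so `Q` acts trivially (CH0), `W` is a
representation of `K`; the scalar product of `χ|_{F_A}` with `ψ∘f∘log` is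
`(m/|F|) (1/|L_A|) ∑_{x ∈ L_A} ∑_h ψ(f(h⁻¹ x h) - f(x)) > 0` (orthogonality), so the projector to the eigenspace is non-zero.
(ii) inflate to `F`, KCH (A), `χ(r) = χ(1)` on `Q` gives `∑_h (1 - ψ(f(h⁻¹ x h))) = 0`, so `f = 0` on `q` (FOU).
Uses LZ, EX, TT, LH1, LH2, KCH, CH0, FOU. -/
def S_KIR : Prop := ∀ (p N c : ℕ) [Fact p.Prime] [NeZero (p ^ N)], 0 < N → 2 < p → 0 < c → c < p →
  ∀ (K : Type) [Group K] [Finite K], lc K c = ⊥ → Nat.card K ∣ p ^ N →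
  ∀ (A : Subgroup K), (∀ a ∈ A, ∀ b ∈ A, a * b = b * a) →
  ∃ (𝔎 : Type) (_ : AddCommGroup 𝔎) (_ : Module (ZMod (p ^ N)) 𝔎) (_ : Finite 𝔎)
    (β : 𝔎 →ₗ[ZMod (p ^ N)] 𝔎 →ₗ[ZMod (p ^ N)] 𝔎) (lgA : Additive A →+ 𝔎),
    (∀ x, β x x = 0) ∧ Function.Injective lgA ∧
    (∀ f : 𝔎 →ₗ[ZMod (p ^ N)] ZMod (p ^ N),
      ∃ (W : Type) (_ : AddCommGroup W) (_ : Module ℂ W) (_ : FiniteDimensional ℂ W)
        (rep : Representation ℂ K W), rep.IsIrreducible ∧
        Module.finrank ℂ W ^ 2 * Nat.card {x : 𝔎 // ∀ y, f (β x y) = 0} = Nat.card 𝔎 ∧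
        ∃ w : W, w ≠ 0 ∧ ∀ a : A, rep (a : K) w =
          (ZMod.stdAddChar (N := p ^ N) (f (lgA (Additive.ofMul a))) : ℂ) • w) ∧
    (∀ (W : Type) [AddCommGroup W] [Module ℂ W] [FiniteDimensional ℂ W]
      (rep : Representation ℂ K W), rep.IsIrreducible →
      ∃ f : 𝔎 →ₗ[ZMod (p ^ N)] ZMod (p ^ N),
        Module.finrank ℂ W ^ 2 * Nat.card {x : 𝔎 // ∀ y, f (β x y) = 0} = Nat.card 𝔎)

/-- ABN: a maximal abelian normal subgroup of a finite `p`-group is self-centralising. -/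
def S_ABN : Prop := ∀ (p : ℕ) [Fact p.Prime] (G : Type) [Group G] [Finite G], IsPGroup p G →
  ∃ A : Subgroup G, A.Normal ∧ (∀ a ∈ A, ∀ b ∈ A, a * b = b * a) ∧
    ∀ g, (∀ a ∈ A, g * a = a * g) → g ∈ A

/-- DUA: duality for `A`, a normal abelian subgroup of the finite group `G` with `|A|` dividing `p^N`.
(1) finite dual. (2) characters separate. (3) `g` trivial on the dual centralises `A`. (4) extension of characters to
a finite module containing `A`. (5) dual nilpotency: if the products of `e` operators `k - 1`, `k ∈ K`, vanish on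
the dual then all `e`-fold commutators `[a, k_1, ..., k_e]` are `1` (`[a,k] = a k a⁻¹ k⁻¹`;
`x([a,k]) = x(a) - x(k a k⁻¹)`). -/
def S_DUA : Prop := ∀ (p N : ℕ) [Fact p.Prime], 0 < N → ∀ (G : Type) [Group G] [Finite G]
  (A : Subgroup G) [A.Normal], (∀ a ∈ A, ∀ b ∈ A, a * b = b * a) → Nat.card A ∣ p ^ N →
  Finite (Dl p N A) ∧
  (∀ a : Additive A, a ≠ 0 → ∃ x : Dl p N A, x a ≠ 0) ∧
  (∀ g : G, (∀ x : Dl p N A, dr p N A g x = x) → ∀ a ∈ A, g * a = a * g) ∧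
  (∀ (𝔎 : Type) [AddCommGroup 𝔎] [Module (ZMod (p ^ N)) 𝔎] [Finite 𝔎] (j : Additive A →+ 𝔎),
    Function.Injective j → ∀ x : Dl p N A, ∃ f : 𝔎 →ₗ[ZMod (p ^ N)] ZMod (p ^ N),
      ∀ a, f (j a) = x a) ∧
  (∀ (K : Subgroup G) (e : ℕ), JV (dr p N A) K e = ⊥ →
    ∀ a ∈ A, ∀ k : Fin e → G, (∀ i, k i ∈ K) →
      (List.ofFn k).foldl (fun (u g : G) => cm u g) a = 1)

/-- CLS (class bound).  `A ≤ K`, the products of `e` factors `k - 1` vanish on the dual of `A`, `A` self-centralising.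
`lcs K (e-1)` acts trivially on the dual (elements of `lcs K j` act as `1 + ` a product of `j+1` factors, `JE^(j+1)`),
so it is in `A` (DUA 3), and by DUA (5) `lcs K (2e-1) = ⊥`.  Uses DUA. (`e ≥ 1`.) -/
def S_CLS : Prop := ∀ (p N e : ℕ) [Fact p.Prime], 0 < N → 0 < e → ∀ (G : Type) [Group G] [Finite G]
  (A : Subgroup G) [A.Normal], (∀ a ∈ A, ∀ b ∈ A, a * b = b * a) → Nat.card A ∣ p ^ N →
  (∀ g, (∀ a ∈ A, g * a = a * g) → g ∈ A) →
  ∀ K : Subgroup G, A ≤ K → JV (dr p N A) K e = ⊥ → lc K (2 * e - 1) = ⊥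

/-- RT1 (Clifford, lower bound): the eigenspaces of the distinct conjugates `g x` of `x` are independent and
`rep g` maps `eig x` isomorphically onto `eig (g x)`. -/
def S_RT1 : Prop := ∀ (p N : ℕ) [Fact p.Prime] [NeZero (p ^ N)] (G : Type) [Group G] [Finite G]
  (A : Subgroup G) [A.Normal], (∀ a ∈ A, ∀ b ∈ A, a * b = b * a) →
  ∀ (W : Type) [AddCommGroup W] [Module ℂ W] [FiniteDimensional ℂ W] (rep : Representation ℂ G W)
    (x : Dl p N A),
  (stb (dr p N A) x).index * Module.finrank ℂ (eig rep A.subtype x) ≤ Module.finrank ℂ W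

/-- RT2 (Clifford, upper bound, for a subgroup `K` with `A ≤ K`): an irreducible `W` of `K` with `eig x ≠ 0` is the sum
of the `rep k (eig x)`, `k ∈ K / (K ∩ stb x)`. -/
def S_RT2 : Prop := ∀ (p N : ℕ) [Fact p.Prime] [NeZero (p ^ N)] (G : Type) [Group G] [Finite G]
  (A : Subgroup G) [A.Normal], (∀ a ∈ A, ∀ b ∈ A, a * b = b * a) → ∀ (K : Subgroup G) (hAK : A ≤ K)
  (W : Type) [AddCommGroup W] [Module ℂ W] [FiniteDimensional ℂ W] (rep : Representation ℂ K W)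
    (x : Dl p N A), rep.IsIrreducible → eig rep (Subgroup.inclusion hAK) x ≠ ⊥ →
  Module.finrank ℂ W ≤ (stb (dr p N A) x).relIndex K *
    Module.finrank ℂ (eig rep (Subgroup.inclusion hAK) x)

/-- RT3: over every irreducible `W` of a subgroup `K` there is an irreducible `M` of `G` containing it (Frobenius, or a
constituent of the induced representation, or of the regular representation). -/
def S_RT3 : Prop := ∀ (G : Type) [Group G] [Finite G] (K : Subgroup G)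
  (W : Type) [AddCommGroup W] [Module ℂ W] [FiniteDimensional ℂ W] (rep : Representation ℂ K W),
  rep.IsIrreducible → ∃ (M : Type) (_ : AddCommGroup M) (_ : Module ℂ M) (_ : FiniteDimensional ℂ M)
    (R : Representation ℂ G M) (φ : W →ₗ[ℂ] M), R.IsIrreducible ∧ Function.Injective φ ∧
    ∀ (k : K) (w : W), φ (rep k w) = R (k : G) (φ w)

/-- RT4: an irreducible `M` of `G`, restricted to `K`, contains an irreducible `W` with `dim M ≤ [G:K] dim W`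
(`M = ∑_{g ∈ G/K} g W`). -/
def S_RT4 : Prop := ∀ (G : Type) [Group G] [Finite G] (K : Subgroup G)
  (M : Type) [AddCommGroup M] [Module ℂ M] [FiniteDimensional ℂ M] (R : Representation ℂ G M),
  R.IsIrreducible → ∃ (W : Type) (_ : AddCommGroup W) (_ : Module ℂ W) (_ : FiniteDimensional ℂ W)
    (rep : Representation ℂ K W) (φ : W →ₗ[ℂ] M), rep.IsIrreducible ∧ Function.Injective φ ∧
    (∀ (k : K) (w : W), φ (rep k w) = R (k : G) (φ w)) ∧
    Module.finrank ℂ M ≤ K.index * Module.finrank ℂ W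

/-- RT5: over every `x` in the dual of a normal abelian subgroup there is an irreducible representation of `G`
(RT3 for `K = A` and the one-dimensional representation `ψ∘x`), so the orbits in the dual have size at most the
maximal degree (RT1). Uses RT1, RT3. -/
def S_RT5 : Prop := ∀ (p N e : ℕ) [Fact p.Prime] [NeZero (p ^ N)] (G : Type) [Group G] [Finite G]
  (A : Subgroup G) [A.Normal], (∀ a ∈ A, ∀ b ∈ A, a * b = b * a) →
  (∀ (V : Type) [AddCommGroup V] [Module ℂ V] [FiniteDimensional ℂ V]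
    (rho : Representation ℂ G V), rho.IsIrreducible → Module.finrank ℂ V ≤ p ^ e) →
  (∀ x : Dl p N A, ∃ (M : Type) (_ : AddCommGroup M) (_ : Module ℂ M) (_ : FiniteDimensional ℂ M)
    (R : Representation ℂ G M), R.IsIrreducible ∧ eig R A.subtype x ≠ ⊥) ∧
  Orb (dr p N A) e ∧ (∀ x : Dl p N A, (stb (dr p N A) x).index ≤ p ^ e)

/-- SQF: an alternating form on a finite `Z/p^N`-module `L`: `|L| = m^2 |Rad|`.  (Non-degenerate on `L / Rad`;
a maximal isotropic submodule `Y` satisfies `Y = Y^⊥` and `|X| = |Y| |Y^⊥|`; or split off hyperbolic planes.) -/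
def S_SQF : Prop := ∀ (p N : ℕ) [Fact p.Prime], 0 < N → ∀ (L : Type) [AddCommGroup L]
  [Module (ZMod (p ^ N)) L] [Finite L] (B : L →ₗ[ZMod (p ^ N)] L →ₗ[ZMod (p ^ N)] ZMod (p ^ N)),
  (∀ x, B x x = 0) → (∃ m : ℕ, m ^ 2 * Nat.card (LinearMap.ker B) = Nat.card L) ∧
  ∀ L1 : Submodule (ZMod (p ^ N)) L, LinearMap.ker B ≤ L1 →
    Nat.card L1 * Nat.card {x : L // ∀ y ∈ L1, B x y = 0} =
      Nat.card L * Nat.card (LinearMap.ker B)

/-- FRM (rank of a family of alternating forms).  `𝔎` finite, `β` alternating; for `f ∈ 𝔎^*` let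
`rk f = len 𝔎 - len Rad f`, an even number (SQF) `≤ 2 E`. If `f2` attains the maximum `rk f2 = 2 E` then for every
`f1` at most `E` nodes `s` have `rk (f1 + s f2) < 2 E`: MI for `b : (x, f) ↦ f ∘ β x` (`Sv b f = Rad f`), and each
defect is `≥ 2`. Uses MI, SQF, LEN. -/
def S_FRM : Prop := ∀ (p N : ℕ) [Fact p.Prime], 0 < N → ∀ (𝔎 : Type) [AddCommGroup 𝔎]
  [Module (ZMod (p ^ N)) 𝔎] [Finite 𝔎] (β : 𝔎 →ₗ[ZMod (p ^ N)] 𝔎 →ₗ[ZMod (p ^ N)] 𝔎),
  (∀ x, β x x = 0) → ∀ (E : ℕ) (f1 f2 : 𝔎 →ₗ[ZMod (p ^ N)] ZMod (p ^ N)),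
  Nat.card 𝔎 = p ^ (2 * E) * Nat.card {x : 𝔎 // ∀ y, f2 (β x y) = 0} →
  (∀ f : 𝔎 →ₗ[ZMod (p ^ N)] ZMod (p ^ N),
    Nat.card 𝔎 ≤ p ^ (2 * E) * Nat.card {x : 𝔎 // ∀ y, f (β x y) = 0}) →
  ∀ T : Finset (ZMod (p ^ N)), Nd T →
  (∀ s ∈ T, Nat.card 𝔎 ≠ p ^ (2 * E) * Nat.card {x : 𝔎 // ∀ y, (f1 + s • f2) (β x y) = 0}) →
  T.card ≤ E

/-- the hypotheses on `G`: `p^e` is the maximal degree -/
def MaxDeg (p e : ℕ) (G : Type) [Group G] : Prop :=
  (∃ (V : Type) (_ : AddCommGroup V) (_ : Module ℂ V) (_ : FiniteDimensional ℂ V)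
    (rho : Representation ℂ G V), rho.IsIrreducible ∧ Module.finrank ℂ V = p ^ e) ∧
  (∀ (V : Type) [AddCommGroup V] [Module ℂ V] [FiniteDimensional ℂ V]
    (rho : Representation ℂ G V), rho.IsIrreducible → Module.finrank ℂ V ≤ p ^ e)

/-- FNB (final step, `r < e`).  Data: `K` normal in `G`, `A ≤ K`, KIR for `K` (class `≤ 2 e - 1 < p`), good set `Gd` with
its counting property.  `res f = f ∘ lgA ∈ Dl A`, onto (DUA 4).  Let `E` be maximal with some irreducible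
representation of `K` of degree `p^E` (degrees are powers of `p`, by KIR (ii) and LEN); `E ≤ e` (RT3),
`p^e ≤ [G:K] p^E` (RT4).  By KIR all `f` satisfy `|𝔎 : Rad f| ≤ p^(2E)`, with equality for some `f2`.
PL on `𝔎^*` with `P1 f = (res f ∈ Gd)` (`r ≤ e - 1`), `P2 f = (|𝔎 : Rad f| = p^(2E))` (`E`, FRM): some `g` has
both.  If `g (lgA z) ≠ 0` take `φ = g`; otherwise take `f` with `f (lgA z) ≠ 0`, and `φ = f + s g` for a node `s`
that is good for both (`r + E ≤ 2 e - 1 < p`), `φ (lgA z) = f (lgA z) ≠ 0`.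
KIR (i) gives `W`, `dim W = p^E`, with `eig (res φ) ≠ 0`; RT3 gives `M ⊇ W` irreducible for `G`;
`dim M ≥ [G : stb x] dim eig_M x ≥ [G:K] [K : stb x] dim eig_W x ≥ [G:K] dim W ≥ p^e` (RT1, RT2, `stb x ≤ K`),
`x = res φ`.  So `dim M = p^e` and `z` acts on `eig_M x ≠ 0` as `ψ (x z) ≠ 1`.
Uses KIR, DUA, PL, NOD, FRM, RT1, RT2, RT3, RT4, LEN, FOU. -/
def S_FNB : Prop := ∀ (p N e : ℕ) [Fact p.Prime] [NeZero (p ^ N)], 0 < N → 2 < p → 0 < e → 2 * e < p →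
  ∀ (G : Type) [Group G] [Finite G], Nat.card G ∣ p ^ N → MaxDeg p e G →
  ∀ (A : Subgroup G) [A.Normal], (∀ a ∈ A, ∀ b ∈ A, a * b = b * a) →
  ∀ (K : Subgroup G) (Gd : Set (Dl p N A)) (r : ℕ), K.Normal → A ≤ K →
  lc K (2 * e - 1) = ⊥ → Gd.Nonempty → r < e →
  (∀ a : ZMod (p ^ N), IsUnit a → ∀ v ∈ Gd, a • v ∈ Gd) →
  (∀ u ∈ Gd, ∀ g, dr p N A g u = u → g ∈ K) →
  (∀ u ∈ Gd, ∀ (x : Dl p N A) (T : Finset (ZMod (p ^ N))), Nd T →
    (∀ s ∈ T, x + s • u ∉ Gd) → T.card ≤ r) →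
  ∀ z : A, z ≠ 1 →
  ∃ (M : Type) (_ : AddCommGroup M) (_ : Module ℂ M) (_ : FiniteDimensional ℂ M)
    (R : Representation ℂ G M), R.IsIrreducible ∧ Module.finrank ℂ M = p ^ e ∧ R (z : G) ≠ 1

/-- FNA (final step, `r = e`).  Some good `x` has `x z ≠ 0` (if the good `u` has `u z = 0` take `x0` with
`x0 z ≠ 0` and `x0 + s u`, at most `r = e < p` bad nodes among `0..p-1`), the orbit of `x` has at least `p^e`
elements, and RT5, RT1 give `M`. Uses DUA, NOD, RT1, RT5, FOU. -/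
def S_FNA : Prop := ∀ (p N e : ℕ) [Fact p.Prime] [NeZero (p ^ N)], 0 < N → 2 < p → 2 * e < p →
  ∀ (G : Type) [Group G] [Finite G], Nat.card G ∣ p ^ N → MaxDeg p e G →
  ∀ (A : Subgroup G) [A.Normal], (∀ a ∈ A, ∀ b ∈ A, a * b = b * a) →
  ∀ (Gd : Set (Dl p N A)), Gd.Nonempty →
  (∀ u ∈ Gd, e ≤ ((stb (dr p N A) u).index).factorization p) →
  (∀ u ∈ Gd, ∀ (x : Dl p N A) (T : Finset (ZMod (p ^ N))), Nd T →
    (∀ s ∈ T, x + s • u ∉ Gd) → T.card ≤ e) →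
  ∀ z : A, z ≠ 1 →
  ∃ (M : Type) (_ : AddCommGroup M) (_ : Module ℂ M) (_ : FiniteDimensional ℂ M)
    (R : Representation ℂ G M), R.IsIrreducible ∧ Module.finrank ℂ M = p ^ e ∧ R (z : G) ≠ 1

/-- FIN: the theorem.  `e = 0`: all irreducible representations have degree `1 = p^0`; RT5 and DUA (2) for `A` from
ABN.  `e ≥ 1`: `p > 2`.  The normal subgroup of the `g` acting trivially in degree `p^e`, if `≠ 1`, meets the centre: take
`z ≠ 1` central in it; `z ∈ A` (ABN). `N` with `|G| = p^N`. RT5 gives `Orb`; MOD for `dr p N A`;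
`A ≤ K` because `A` acts trivially on the dual and `st`.  `r = e`: FNA.  `r < e`: CLS and FNB.
Uses ABN, RT5, DUA, MOD, FNA, FNB, CLS, FOU. -/
def S_FIN : Prop := ∀ (p : ℕ), p.Prime → ∀ (G : Type) [Group G] [Finite G], IsPGroup p G →
  ∀ e : ℕ,
  (∃ (V : Type) (_ : AddCommGroup V) (_ : Module ℂ V) (_ : FiniteDimensional ℂ V)
    (rho : Representation ℂ G V), rho.IsIrreducible ∧ Module.finrank ℂ V = p ^ e) →
  (∀ (V : Type) [AddCommGroup V] [Module ℂ V] [FiniteDimensional ℂ V]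
    (rho : Representation ℂ G V), rho.IsIrreducible → Module.finrank ℂ V ≤ p ^ e) →
  2 * e < p →
  ∀ g : G, (∀ (V : Type) [AddCommGroup V] [Module ℂ V] [FiniteDimensional ℂ V]
    (rho : Representation ℂ G V), rho.IsIrreducible → Module.finrank ℂ V = p ^ e → rho g = 1) →
  g = 1

end H6.NE
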