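import Pool.Agent.H6.NE.Stm1

set_option autoImplicit false

open Finset Polynomial

namespace H6.NE

namespace TTp

variable {p N c : ℕ} {S : Type} [Ring S] [Algebra (ZMod (p ^ N)) S]

theorem map_ex {A B : Type} [Ring A] [Algebra (ZMod (p ^ N)) A] [Ring B] [Algebra (ZMod (p ^ N)) B]
    (φ : A →+* B) (hφ : ∀ (s : ZMod (p ^ N)) (x : A), φ (s • x) = s • φ x) (x : A) :
    φ (ex p N x) = ex p N (φ x) := by
  unfold ex
  rw [map_sum]
  refine Finset.sum_congr rfl fun i _ => ?_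
  rw [hφ, map_pow]

/-- polynomials with zero coefficients below `m` and `coeff i ∈ J^i` -/
def Gm (J : Submodule (ZMod (p ^ N)) S) (m : ℕ) : Submodule (ZMod (p ^ N)) S[X] where
  carrier := {q | (∀ i < m, q.coeff i = 0) ∧ ∀ i, q.coeff i ∈ J ^ i}
  add_mem' := by
    rintro a b ⟨ha, ha'⟩ ⟨hb, hb'⟩
    exact ⟨fun i hi => by rw [coeff_add, ha i hi, hb i hi, add_zero],
      fun i => by rw [coeff_add]; exact add_mem (ha' i) (hb' i)⟩
  zero_mem' := ⟨fun i _ => by simp, fun i => by simp⟩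
  smul_mem' := by
    rintro s a ⟨ha, ha'⟩
    exact ⟨fun i hi => by rw [coeff_smul, ha i hi, smul_zero],
      fun i => by rw [coeff_smul]; exact Submodule.smul_mem _ _ (ha' i)⟩

theorem mem_Gm {J : Submodule (ZMod (p ^ N)) S} {m : ℕ} {q : S[X]} :
    q ∈ Gm J m ↔ (∀ i < m, q.coeff i = 0) ∧ ∀ i, q.coeff i ∈ J ^ i := Iff.rfl

theorem Gm_anti (J : Submodule (ZMod (p ^ N)) S) {m n : ℕ} (h : m ≤ n) : Gm J n ≤ Gm J m :=
  fun _ hq => ⟨fun i hi => hq.1 i (lt_of_lt_of_le hi h), hq.2⟩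

theorem Gm_mul (J : Submodule (ZMod (p ^ N)) S) {m n : ℕ} {a b : S[X]} (ha : a ∈ Gm J m)
    (hb : b ∈ Gm J n) : a * b ∈ Gm J (m + n) := by
  refine ⟨fun k hk => ?_, fun k => ?_⟩
  · rw [coeff_mul]
    refine Finset.sum_eq_zero fun ij hij => ?_
    have hs : ij.1 + ij.2 = k := by simpa using hij
    rcases lt_or_ge ij.1 m with h1 | h1
    · rw [ha.1 _ h1, zero_mul]
    · rw [hb.1 _ (by omega), mul_zero]
  · rw [coeff_mul]
    refine Submodule.sum_mem _ fun ij hij => ?_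
    have hs : ij.1 + ij.2 = k := by simpa using hij
    rw [← hs, pow_add]
    exact Submodule.mul_mem_mul (ha.2 _) (hb.2 _)

theorem Gm_coeff_mul (J : Submodule (ZMod (p ^ N)) S) {m : ℕ} {a b : S[X]} (ha : a ∈ Gm J m)
    (hb : b ∈ Gm J 1) : (a * b).coeff m = 0 :=
  (Gm_mul J ha hb).1 m (by omega)

theorem Gm_pow_le (J : Submodule (ZMod (p ^ N)) S) (k : ℕ) : (Gm J 1) ^ (k + 1) ≤ Gm J (k + 1) := by
  induction k with
  | zero => simp
  | succ k ih =>
    rw [pow_succ, Submodule.mul_le]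
    intro a ha b hb
    exact Gm_mul J (ih ha) hb

theorem Gm_bot {J : Submodule (ZMod (p ^ N)) S} (hJ : J ^ (c + 1) = ⊥) : Gm J (c + 1) = ⊥ := by
  rw [eq_bot_iff]
  intro q hq
  rw [Submodule.mem_bot]
  ext i
  rw [coeff_zero]
  rcases lt_or_ge i (c + 1) with h | h
  · exact hq.1 i h
  · have h2 := hq.2 i
    have h3 : J ^ i = ⊥ := by
      obtain ⟨j, rfl⟩ := Nat.exists_eq_add_of_le h
      rw [pow_add, hJ, Submodule.bot_mul]
    rw [h3, Submodule.mem_bot] at h2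
    exact h2

theorem CX_mem {J : Submodule (ZMod (p ^ N)) S} {z : S} (hz : z ∈ J) : C z * X ∈ Gm J 1 := by
  refine ⟨fun i hi => ?_, fun i => ?_⟩
  · interval_cases i
    simp
  · rw [coeff_C_mul_X]
    split_ifs with h
    · subst h; simpa using hz
    · exact zero_mem _

/-- evaluation at a scalar -/
noncomputable def ev (t : ZMod (p ^ N)) : S[X] →+* S :=
  eval₂RingHom' (RingHom.id S) (algebraMap (ZMod (p ^ N)) S t)
    (fun a => (Algebra.commutes t a).symm)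

theorem ev_C (t : ZMod (p ^ N)) (a : S) : ev t (C a) = a := by
  show eval₂ _ _ (C a) = a
  rw [eval₂_C]; rfl

theorem ev_X (t : ZMod (p ^ N)) : ev t (X : S[X]) = algebraMap (ZMod (p ^ N)) S t := by
  show eval₂ _ _ X = _
  rw [eval₂_X]

theorem ev_smul (t s : ZMod (p ^ N)) (q : S[X]) : ev t (s • q) = s • ev t q := by
  have h : s • q = C (algebraMap (ZMod (p ^ N)) S s) * q := by
    rw [← smul_eq_C_mul, algebraMap_smul]
  rw [h, map_mul, ev_C, Algebra.smul_def]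

/-- substitution `X ↦ s X` -/
noncomputable def sg (s : ZMod (p ^ N)) : S[X] →+* S[X] :=
  eval₂RingHom' C (C (algebraMap (ZMod (p ^ N)) S s) * X)
    (fun a => by
      refine Commute.mul_right ?_ (commute_X _).symm
      show _ * _ = _ * _
      rw [← C_mul, ← C_mul, Algebra.commutes])

theorem sg_C (s : ZMod (p ^ N)) (a : S) : sg s (C a) = C a := by simp [sg]

theorem sg_X (s : ZMod (p ^ N)) : sg s (X : S[X]) = C (algebraMap (ZMod (p ^ N)) S s) * X := by
  simp [sg]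

theorem sg_smul (s r : ZMod (p ^ N)) (q : S[X]) : sg s (r • q) = r • sg s q := by
  have h : ∀ q : S[X], r • q = C (algebraMap (ZMod (p ^ N)) S r) * q := by
    intro q
    rw [← smul_eq_C_mul, algebraMap_smul]
  rw [h, h, map_mul, sg_C]

theorem sg_coeff (s : ZMod (p ^ N)) (q : S[X]) (i : ℕ) : (sg s q).coeff i = s ^ i • q.coeff i := by
  induction q using Polynomial.induction_on' with
  | add a b ha hb => rw [map_add, coeff_add, coeff_add, ha, hb, smul_add]
  | monomial n a =>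
    rw [← C_mul_X_pow_eq_monomial, map_mul, map_pow, sg_C, sg_X]
    have h : (C (algebraMap (ZMod (p ^ N)) S s) * X : S[X]) ^ n
        = C ((algebraMap (ZMod (p ^ N)) S s) ^ n) * X ^ n := by
      rw [(commute_X _).symm.mul_pow, C_pow]
    rw [h, ← mul_assoc, ← C_mul, coeff_C_mul_X_pow, coeff_C_mul_X_pow]
    split_ifs with h1
    · subst h1
      rw [Algebra.smul_def, ← map_pow, Algebra.commutes]
    · rw [smul_zero]

theorem sg_mem {J : Submodule (ZMod (p ^ N)) S} {m : ℕ} {q : S[X]} (hq : q ∈ Gm J m)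
    (s : ZMod (p ^ N)) : sg s q ∈ Gm J m :=
  ⟨fun i hi => by rw [sg_coeff, hq.1 i hi, smul_zero],
    fun i => by rw [sg_coeff]; exact Submodule.smul_mem _ _ (hq.2 i)⟩

theorem ev_sg (s t : ZMod (p ^ N)) (q : S[X]) : ev t (sg s q) = ev (s * t) q := by
  have h : (ev t).comp (sg (S := S) s) = ev (s * t) := by
    refine Polynomial.ringHom_ext' ?_ ?_
    · ext a
      simp [ev_C, sg_C]
    · simp [ev_C, sg_X, ev_X]
  rw [← h]; rfl


/-- the exponential families -/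
noncomputable def EE (z : S) (s : ZMod (p ^ N)) : S[X] := ex p N (s • (C z * X))

/-- `w = E(α) (1 + r)`, `r ∈ Gm m` with `m`-th coefficient `v` -/
def DD (J : Submodule (ZMod (p ^ N)) S) (z : S) (m : ℕ) (α : ZMod (p ^ N)) (v : S) (w : S[X]) :
    Prop := ∃ r ∈ Gm J m, r.coeff m = v ∧ w = EE z α * (1 + r)

section
variable [Fact p.Prime] {J : Submodule (ZMod (p ^ N)) S}

theorem ex_setup (hEX : S_EX) (hJ : J * J ≤ J) (hc : c < p) (hn : J ^ (c + 1) = ⊥) :
    (∀ x ∈ Gm J 1, ∀ y ∈ Gm J 1, Commute x y → ex p N (x + y) = ex p N x * ex p N y) ∧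
    (∀ x ∈ Gm J 1, ex p N x - 1 ∈ Gm J 1 ∧ ex p N x - 1 - x ∈ Gm J 2) := by
  have hmul : Gm J 1 * Gm J 1 ≤ Gm J 1 := by
    rw [Submodule.mul_le]
    intro a ha b hb
    exact Gm_anti J (by norm_num) (Gm_mul J ha hb)
  have hbot : (Gm J 1) ^ (c + 1) = ⊥ := by
    rw [eq_bot_iff, ← Gm_bot hn]
    exact Gm_pow_le J c
  obtain ⟨h1, h2, -⟩ := hEX p N c S[X] (Gm J 1) hmul hc hbot
  refine ⟨h1, fun x hx => ⟨(h2 x hx).1, ?_⟩⟩
  have := (h2 x hx).2
  exact Gm_pow_le J 1 this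

theorem EE_add (hEX : S_EX) (hJ : J * J ≤ J) (hc : c < p) (hn : J ^ (c + 1) = ⊥) {z : S}
    (hz : z ∈ J) (s t : ZMod (p ^ N)) : EE z (s + t) = EE z s * EE z t := by
  unfold EE
  rw [add_smul]
  refine (ex_setup hEX hJ hc hn).1 _ (Submodule.smul_mem _ _ (CX_mem hz)) _
    (Submodule.smul_mem _ _ (CX_mem hz)) ?_
  exact ((Commute.refl (C z * X : S[X])).smul_left s).smul_right t

theorem EE_zero (z : S) : EE (p := p) (N := N) z 0 = 1 := by
  unfold EE ex
  rw [zero_smul]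
  have hp : 0 < p := (Fact.out : p.Prime).pos
  rw [Finset.sum_eq_single_of_mem 0 (Finset.mem_range.mpr hp)]
  · simp
  · intro i _ hi
    rw [zero_pow hi, smul_zero]

theorem DD_mul (hEX : S_EX) (hJ : J * J ≤ J) (hc : c < p) (hn : J ^ (c + 1) = ⊥) {z : S}
    (hz : z ∈ J) {m : ℕ} {α β : ZMod (p ^ N)} {v v' : S} {w w' : S[X]}
    (h : DD J z m α v w) (h' : DD J z m β v' w') (hm : 0 < m) : DD J z m (α + β) (v + v') (w * w') := by
  obtain ⟨r, hr, hrv, rfl⟩ := h
  obtain ⟨r', hr', hrv', rfl⟩ := h'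
  have hE : ∀ s, EE z s - 1 ∈ Gm J 1 := fun s =>
    ((ex_setup hEX hJ hc hn).2 _ (Submodule.smul_mem _ s (CX_mem hz))).1
  have hinv : EE z (-β) * EE z β = 1 := by
    rw [← EE_add hEX hJ hc hn hz, neg_add_cancel, EE_zero]
  have hinv' : EE z β * EE z (-β) = 1 := by
    rw [← EE_add hEX hJ hc hn hz, add_neg_cancel, EE_zero]
  set d : S[X] := EE z (-β) * r * EE z β with hd
  have hdr : d - r ∈ Gm J (m + 1) := by
    have h1 : d - r = (EE z (-β) - 1) * r * EE z β + r * (EE z β - 1) := by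
      rw [hd]; noncomm_ring
    rw [h1]
    refine add_mem ?_ (Gm_mul J hr (hE β))
    have h2 : (EE z (-β) - 1) * r ∈ Gm J (m + 1) := by
      rw [add_comm]; exact Gm_mul J (hE _) hr
    have h3 : (EE z (-β) - 1) * r * EE z β
        = (EE z (-β) - 1) * r + (EE z (-β) - 1) * r * (EE z β - 1) := by noncomm_ring
    rw [h3]
    exact add_mem h2 (Gm_anti J (by omega) (Gm_mul J h2 (hE β)))
  have hdm : d ∈ Gm J m := by
    have : d = (d - r) + r := by abel
    rw [this]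
    exact add_mem (Gm_anti J (by omega) hdr) hr
  have hdc : d.coeff m = v := by
    have h1 := hdr.1 m (by omega)
    rw [coeff_sub, sub_eq_zero] at h1
    rw [h1, hrv]
  refine ⟨d + r' + d * r', ?_, ?_, ?_⟩
  · exact add_mem (add_mem hdm hr') (Gm_anti J (by omega) (Gm_mul J hdm hr'))
  · have : (d * r').coeff m = 0 := (Gm_mul J hdm hr').1 m (by omega)
    rw [coeff_add, coeff_add, this, hdc, hrv', add_zero]
  · rw [EE_add hEX hJ hc hn hz]
    have h1 : (1 + r) * EE z β = EE z β * (1 + d) := by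
      rw [hd, mul_add, mul_one, ← mul_assoc, ← mul_assoc, hinv', one_mul, add_mul, one_mul]
    calc EE z α * (1 + r) * (EE z β * (1 + r')) = EE z α * ((1 + r) * EE z β) * (1 + r') := by
          noncomm_ring
      _ = EE z α * EE z β * ((1 + d) * (1 + r')) := by rw [h1]; noncomm_ring
      _ = _ := by noncomm_ring

theorem DD_one (z : S) (m : ℕ) : DD J z m (0 : ZMod (p ^ N)) 0 (1 : S[X]) :=
  ⟨0, zero_mem _, by simp, by rw [EE_zero]; simp⟩

theorem DD_pow (hEX : S_EX) (hJ : J * J ≤ J) (hc : c < p) (hn : J ^ (c + 1) = ⊥) {z : S}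
    (hz : z ∈ J) {m : ℕ} {α : ZMod (p ^ N)} {v : S} {w : S[X]}
    (h : DD J z m α v w) (hm : 0 < m) (n : ℕ) :
    DD J z m ((n : ZMod (p ^ N)) * α) (n • v) (w ^ n) := by
  induction n with
  | zero => simpa using DD_one (J := J) z m
  | succ n ih =>
    have := DD_mul hEX hJ hc hn hz ih h hm
    have e1 : (((n + 1 : ℕ) : ZMod (p ^ N))) * α = (n : ZMod (p ^ N)) * α + α := by
      push_cast; ring
    rw [e1, succ_nsmul, pow_succ]
    exact this

theorem DD_sg {z : S} {m : ℕ} {α : ZMod (p ^ N)} {v : S} {w : S[X]}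
    (h : DD J z m α v w) (s : ZMod (p ^ N)) : DD J z m (s * α) (s ^ m • v) (sg s w) := by
  obtain ⟨r, hr, hrv, rfl⟩ := h
  refine ⟨sg s r, sg_mem hr s, by rw [sg_coeff, hrv], ?_⟩
  rw [map_mul, map_add, map_one]
  congr 1
  unfold EE
  rw [map_ex (sg s) (fun a b => sg_smul s a b), sg_smul, map_mul, sg_C, sg_X]
  congr 1
  have h1 : C z * (C (algebraMap (ZMod (p ^ N)) S s) * X) = s • (C z * X : S[X]) := by
    rw [← mul_assoc, ← C_mul, ← Algebra.commutes, ← Algebra.smul_def]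
    rw [← smul_C, smul_mul_assoc]
  rw [h1, smul_smul, mul_comm]

end

section group
variable [Fact p.Prime] {J : Submodule (ZMod (p ^ N)) S} {H : Subgroup Sˣ}

/-- the family `w` lies in `H` with classes `g0^(τ t)` -/
def HH (g0 : Abelianization H) (τ : ZMod (p ^ N)) (w : S[X]) : Prop :=
  ∀ t : ZMod (p ^ N), ∃ h : H, ((h : Sˣ) : S) = ev t w ∧ Abelianization.of h = g0 ^ ((τ * t).val)

theorem pw_add {g0 : Abelianization H} (hg : g0 ^ (p ^ N) = 1) (a b : ZMod (p ^ N)) :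
    g0 ^ (a + b).val = g0 ^ a.val * g0 ^ b.val := by
  haveI : NeZero (p ^ N) := ⟨pow_ne_zero _ (Fact.out : p.Prime).ne_zero⟩
  rw [ZMod.val_add, ← pow_eq_pow_mod _ hg, pow_add]

theorem HH_mul {g0 : Abelianization H} (hg : g0 ^ (p ^ N) = 1) {τ τ' : ZMod (p ^ N)} {w w' : S[X]}
    (h : HH g0 τ w) (h' : HH g0 τ' w') : HH g0 (τ + τ') (w * w') := by
  intro t
  obtain ⟨a, ha, ha'⟩ := h t
  obtain ⟨b, hb, hb'⟩ := h' t
  refine ⟨a * b, ?_, ?_⟩
  · rw [map_mul, ← ha, ← hb]; simp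
  · rw [map_mul, ha', hb', add_mul, pw_add hg]

theorem HH_one {g0 : Abelianization H} : HH g0 (0 : ZMod (p ^ N)) (1 : S[X]) := by
  intro t
  exact ⟨1, by simp, by simp⟩

theorem HH_pow {g0 : Abelianization H} (hg : g0 ^ (p ^ N) = 1) {τ : ZMod (p ^ N)} {w : S[X]}
    (h : HH g0 τ w) (n : ℕ) : HH g0 ((n : ZMod (p ^ N)) * τ) (w ^ n) := by
  induction n with
  | zero => simpa using HH_one (g0 := g0)
  | succ n ih =>
    have e1 : (((n + 1 : ℕ) : ZMod (p ^ N))) * τ = (n : ZMod (p ^ N)) * τ + τ := by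
      push_cast; ring
    rw [e1, pow_succ]
    exact HH_mul hg ih h

theorem HH_sg {g0 : Abelianization H} {τ : ZMod (p ^ N)} {w : S[X]}
    (h : HH g0 τ w) (s : ZMod (p ^ N)) : HH g0 (s * τ) (sg s w) := by
  intro t
  obtain ⟨a, ha, ha'⟩ := h (s * t)
  refine ⟨a, by rw [ev_sg, ha], ?_⟩
  rw [ha']
  congr 2
  ring

theorem step (hEX : S_EX) (hTEI : S_TEI) (hN : 0 < N) (hJ : J * J ≤ J) (hc : c < p)
    (hn : J ^ (c + 1) = ⊥) {z : S} (hz : z ∈ J) {g0 : Abelianization H} (hg : g0 ^ (p ^ N) = 1)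
    {m : ℕ} (hm2 : 2 ≤ m) (hmc : m ≤ c) {v : S} {w : S[X]} (h : DD J z m 1 v w)
    (h' : HH g0 (1 : ZMod (p ^ N)) w) : ∃ (v' : S) (w' : S[X]), DD J z (m + 1) (1 : ZMod (p ^ N)) v' w' ∧
      HH g0 (1 : ZMod (p ^ N)) w' := by
  haveI : NeZero (p ^ N) := ⟨pow_ne_zero _ (Fact.out : p.Prime).ne_zero⟩
  have hp2 : 2 ≤ p := (Fact.out : p.Prime).two_le
  obtain ⟨ζ, hζ1, hζ2⟩ := hTEI p N hN
  have hu : IsUnit (((p - 1 : ℕ)) : ZMod (p ^ N)) := by
    rw [ZMod.isUnit_iff_coprime]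
    apply Nat.Coprime.pow_right
    have h0 := Nat.coprime_of_lt_prime (n := p - 1) (p := p) (by omega) (by omega) Fact.out
    first
      | exact h0
      | exact h0.symm
  obtain ⟨u, hu⟩ := hu
  set κ : ZMod (p ^ N) := ((u⁻¹ : (ZMod (p ^ N))ˣ) : ZMod (p ^ N)) with hκ
  have hκ1 : κ * ((p - 1 : ℕ) : ZMod (p ^ N)) = 1 := by
    rw [hκ, ← hu, Units.inv_mul]
  let nn : ℕ → ℕ := fun a => (κ * ζ ^ (a * (p - 2))).val
  have hnn : ∀ a, ((nn a : ℕ) : ZMod (p ^ N)) = κ * ζ ^ (a * (p - 2)) := fun a =>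
    ZMod.natCast_zmod_val _
  have key : ∀ k : ℕ, ∃ W : S[X],
      DD J z m (∑ a ∈ Finset.range k, (nn a : ZMod (p ^ N)) * ζ ^ a)
        ((∑ a ∈ Finset.range k, (nn a : ZMod (p ^ N)) * (ζ ^ a) ^ m) • v) W ∧
      HH g0 (∑ a ∈ Finset.range k, (nn a : ZMod (p ^ N)) * ζ ^ a) W := by
    intro k
    induction k with
    | zero => exact ⟨1, by simpa using DD_one (J := J) z m, by simpa using HH_one (g0 := g0)⟩
    | succ k ih =>
      obtain ⟨W, hW, hW'⟩ := ih
      refine ⟨W * (sg (ζ ^ k) w) ^ (nn k), ?_, ?_⟩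
      · rw [Finset.sum_range_succ, Finset.sum_range_succ, add_smul]
        refine DD_mul hEX hJ hc hn hz hW ?_ (by omega)
        have := DD_pow hEX hJ hc hn hz (DD_sg h (ζ ^ k)) (by omega) (nn k)
        rw [mul_one] at this
        rw [mul_smul, Nat.cast_smul_eq_nsmul]
        exact this
      · rw [Finset.sum_range_succ]
        refine HH_mul hg hW' ?_
        have := HH_pow hg (HH_sg h' (ζ ^ k)) (nn k)
        rw [mul_one] at this
        exact this
  obtain ⟨W, hW, hW'⟩ := key (p - 1)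
  have e1 : ∑ a ∈ Finset.range (p - 1), (nn a : ZMod (p ^ N)) * ζ ^ a = 1 := by
    have : ∀ a ∈ Finset.range (p - 1), (nn a : ZMod (p ^ N)) * ζ ^ a = κ := by
      intro a _
      rw [hnn, mul_assoc, ← pow_add]
      have : a * (p - 2) + a = (p - 1) * a := by
        have h1 : p - 1 = (p - 2) + 1 := by omega
        rw [h1]; ring
      rw [this, pow_mul, hζ1, one_pow, mul_one]
    rw [Finset.sum_congr rfl this, Finset.sum_const, Finset.card_range, nsmul_eq_mul, mul_comm,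
      hκ1]
  have e2 : ∑ a ∈ Finset.range (p - 1), (nn a : ZMod (p ^ N)) * (ζ ^ a) ^ m = 0 := by
    have : ∀ a ∈ Finset.range (p - 1), (nn a : ZMod (p ^ N)) * (ζ ^ a) ^ m
        = κ * ζ ^ (a * (m - 1)) := by
      intro a _
      rw [hnn, mul_assoc, ← pow_mul, ← pow_add]
      have : a * (p - 2) + a * m = (p - 1) * a + a * (m - 1) := by
        have h1 : p - 1 = (p - 2) + 1 := by omega
        obtain ⟨m', rfl⟩ : ∃ m', m = m' + 1 := ⟨m - 1, by omega⟩
        rw [h1, Nat.add_sub_cancel]; ring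
      rw [this, pow_add, pow_mul, hζ1, one_pow, one_mul]
    rw [Finset.sum_congr rfl this, ← Finset.mul_sum, hζ2 (m - 1) (by omega) (by omega), mul_zero]
  rw [e1, e2, zero_smul] at hW
  rw [e1] at hW'
  obtain ⟨r, hr, hr0, hWr⟩ := hW
  refine ⟨r.coeff (m + 1), W, ⟨r, ⟨fun i hi => ?_, hr.2⟩, rfl, hWr⟩, hW'⟩
  rcases Nat.lt_succ_iff_lt_or_eq.mp hi with h1 | h1
  · exact hr.1 i h1
  · rw [h1, hr0]

theorem base (hEX : S_EX) (hJ : J * J ≤ J) (hc : c < p) (hn : J ^ (c + 1) = ⊥) {x y : S}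
    (hx : x ∈ J) (hy : y ∈ J) : DD J (x + y) 2 (1 : ZMod (p ^ N))
      ((ex p N (C x * X) * ex p N (C y * X) : S[X]) |> fun w =>
        (EE (p := p) (N := N) (x + y) (-1) * w - 1).coeff 2)
      (ex p N (C x * X) * ex p N (C y * X)) := by
  have hz : x + y ∈ J := add_mem hx hy
  obtain ⟨-, h2⟩ := ex_setup (p := p) (N := N) hEX hJ hc hn
  refine ⟨EE (p := p) (N := N) (x + y) (-1) * (ex p N (C x * X) * ex p N (C y * X)) - 1, ?_, rfl, ?_⟩
  · have hu := Submodule.smul_mem _ (-1 : ZMod (p ^ N)) (CX_mem hz)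
    obtain ⟨a1, a2⟩ := h2 _ hu
    obtain ⟨b1, b2⟩ := h2 _ (CX_mem hx)
    obtain ⟨d1, d2⟩ := h2 _ (CX_mem hy)
    change EE (p := p) (N := N) (x + y) (-1) - 1 ∈ Gm J 1 at a1
    change EE (p := p) (N := N) (x + y) (-1) - 1 - _ ∈ Gm J 2 at a2
    set A := EE (p := p) (N := N) (x + y) (-1) - 1 with hA
    set B := ex p N (C x * X : S[X]) - 1 with hB
    set D := ex p N (C y * X : S[X]) - 1 with hD
    have e1 : EE (p := p) (N := N) (x + y) (-1) = 1 + A := by rw [hA]; abel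
    have e2 : ex p N (C x * X : S[X]) = 1 + B := by rw [hB]; abel
    have e3 : ex p N (C y * X : S[X]) = 1 + D := by rw [hD]; abel
    rw [e1, e2, e3]
    have e4 : (1 + A) * ((1 + B) * (1 + D)) - 1 =
        (A - (-1 : ZMod (p ^ N)) • (C (x + y) * X)) + (B - C x * X) + (D - C y * X)
          + (B * D + A * B + A * D + A * (B * D)) := by
      have : (-1 : ZMod (p ^ N)) • (C (x + y) * X : S[X]) = - (C x * X + C y * X) := by
        rw [neg_smul, one_smul, C_add, add_mul]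
      rw [this]
      noncomm_ring
    rw [e4]
    have hBD := Gm_mul J b1 d1
    refine add_mem (add_mem (add_mem a2 b2) d2) (add_mem (add_mem (add_mem hBD (Gm_mul J a1 b1))
      (Gm_mul J a1 d1)) ?_)
    exact Gm_anti J (by omega) (Gm_mul J a1 hBD)
  · have h1 : EE (p := p) (N := N) (x + y) 1 * EE (p := p) (N := N) (x + y) (-1) = 1 := by
      rw [← EE_add hEX hJ hc hn hz, add_neg_cancel, EE_zero]
    rw [add_sub_cancel, ← mul_assoc, h1, one_mul]

end group

end TTp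

theorem t_TT (hEX : S_EX) (hTEI : S_TEI) : S_TT := by
  intro p N c _ hN S _ _ J H hU x hx y hy a ha b hb hax hby
  have hp : p.Prime := Fact.out
  haveI : NeZero (p ^ N) := ⟨pow_ne_zero _ hp.ne_zero⟩
  have hJ := hU.mul
  have hc := hU.lt
  have hn := hU.nil
  have hz : x + y ∈ J := add_mem hx hy
  obtain ⟨-, -, -, -, -, -, hpw⟩ := hEX p N c S J hJ hc hn
  obtain ⟨ha1, ha2⟩ := hpw x hx a hax
  obtain ⟨hb1, hb2⟩ := hpw y hy b hby
  let a' : H := ⟨a, ha⟩
  let b' : H := ⟨b, hb⟩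
  set g0 : Abelianization H := Abelianization.of a' * Abelianization.of b' with hg0
  have hg : g0 ^ (p ^ N) = 1 := by
    rw [hg0, mul_pow, ← map_pow, ← map_pow]
    have h1 : a' ^ (p ^ N) = 1 := Subtype.ext ha1
    have h2 : b' ^ (p ^ N) = 1 := Subtype.ext hb1
    rw [h1, h2, map_one, mul_one]
  have hbase := TTp.base (p := p) (N := N) hEX hJ hc hn hx hy
  have hHH : TTp.HH g0 (1 : ZMod (p ^ N)) (ex p N (C x * X : S[X]) * ex p N (C y * X)) := by
    intro t
    refine ⟨a' ^ t.val * b' ^ t.val, ?_, ?_⟩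
    · rw [map_mul, TTp.map_ex (TTp.ev t) (fun s q => TTp.ev_smul t s q),
        TTp.map_ex (TTp.ev t) (fun s q => TTp.ev_smul t s q), map_mul, map_mul, TTp.ev_C, TTp.ev_C,
        TTp.ev_X]
      have e1 : ∀ q : S, q * algebraMap (ZMod (p ^ N)) S t = t • q := fun q => by
        rw [← Algebra.commutes, Algebra.smul_def]
      rw [e1, e1]
      have h1 := ha2 t.val
      have h2 := hb2 t.val
      rw [ZMod.natCast_zmod_val] at h1 h2
      rw [← h1, ← h2]
      rfl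
    · rw [map_mul, map_pow, map_pow, ← mul_pow, one_mul]
  have key : ∀ m, 2 ≤ m → m ≤ max 2 (c + 1) → ∃ (v : S) (w : S[X]),
      TTp.DD J (x + y) m (1 : ZMod (p ^ N)) v w ∧ TTp.HH g0 (1 : ZMod (p ^ N)) w := by
    intro m hm
    induction m, hm using Nat.le_induction with
    | base => intro _; exact ⟨_, _, hbase, hHH⟩
    | succ m hm ih =>
      intro hm'
      obtain ⟨v, w, h1, h2⟩ := ih (by omega)
      exact TTp.step hEX hTEI hN hJ hc hn hz hg hm (by omega) h1 h2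
  obtain ⟨v, w, ⟨r, hr, -, hw⟩, h2⟩ := key _ (le_max_left _ _) le_rfl
  have hr0 : r = 0 := by
    have := TTp.Gm_anti J (le_max_right 2 (c + 1)) hr
    rw [TTp.Gm_bot hn, Submodule.mem_bot] at this
    exact this
  obtain ⟨h, hh1, hh2⟩ := h2 1
  have hh3 : ((h : Sˣ) : S) = ex p N (x + y) := by
    rw [hh1, hw, hr0, add_zero, mul_one]
    unfold TTp.EE
    rw [TTp.map_ex (TTp.ev (1 : ZMod (p ^ N))) (fun s q => TTp.ev_smul 1 s q), TTp.ev_smul, map_mul, TTp.ev_C,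
      TTp.ev_X, map_one, mul_one, one_smul]
  have hval : ((1 : ZMod (p ^ N)) * 1).val = 1 := by
    haveI : Fact (1 < p ^ N) := ⟨Nat.one_lt_pow hN.ne' hp.one_lt⟩
    rw [mul_one, ZMod.val_one]
  rw [hval, pow_one, hg0, ← map_mul] at hh2
  have hcm : (a' * b')⁻¹ * h ∈ commutator H := by
    rw [← Abelianization.ker_of, MonoidHom.mem_ker, map_mul, map_inv, hh2, inv_mul_cancel]
  refine ⟨(((a' * b')⁻¹ * h : H) : Sˣ), ?_, ?_⟩
  · have := Subgroup.mem_map_of_mem H.subtype hcm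
    rw [Subgroup.map_subtype_commutator] at this
    exact this
  · rw [← hh3]
    congr 1
    simp [a', b', mul_assoc]

end H6.NE
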