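import Pool.Agent.H6.NE.Stm3

set_option autoImplicit false

open Finset

namespace H6.NE

namespace CLSp

variable {p N : ℕ} {G V : Type} [Group G] [AddCommGroup V] [Module (ZMod (p ^ N)) V]

theorem JV_mem (ρ : Representation (ZMod (p ^ N)) G V) (K : Subgroup G) (m : ℕ) {k : G} (hk : k ∈ K)
    {v : V} (hv : v ∈ JV ρ K m) : ρ k v - v ∈ JV ρ K (m + 1) :=
  Submodule.subset_span ⟨k, hk, v, hv, rfl⟩

theorem JV_succ_le (ρ : Representation (ZMod (p ^ N)) G V) (K : Subgroup G) (m : ℕ) :
    JV ρ K (m + 1) ≤ JV ρ K m := by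
  induction m with
  | zero => exact le_top
  | succ m ih =>
    show Submodule.span _ _ ≤ Submodule.span _ _
    apply Submodule.span_mono
    rintro w ⟨k, hk, v, hv, rfl⟩
    exact ⟨k, hk, v, ih hv, rfl⟩

theorem JV_anti (ρ : Representation (ZMod (p ^ N)) G V) (K : Subgroup G) {m n : ℕ} (h : m ≤ n) :
    JV ρ K n ≤ JV ρ K m := by
  induction n, h using Nat.le_induction with
  | base => exact le_rfl
  | succ n _ ih => exact (JV_succ_le ρ K n).trans ih

theorem JV_stable (ρ : Representation (ZMod (p ^ N)) G V) (K : Subgroup G) (m : ℕ) {k : G}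
    (hk : k ∈ K) {v : V} (hv : v ∈ JV ρ K m) : ρ k v ∈ JV ρ K m := by
  have h := JV_succ_le ρ K m (JV_mem ρ K m hk hv)
  have : ρ k v = (ρ k v - v) + v := by abel
  rw [this]
  exact add_mem h hv

theorem lc_act (ρ : Representation (ZMod (p ^ N)) G V) (K : Subgroup G) (j : ℕ) :
    ∀ g ∈ lc K j, ∀ m, ∀ v ∈ JV ρ K m, ρ (g : G) v - v ∈ JV ρ K (m + j + 1) := by
  induction j with
  | zero => intro g _ m v hv; exact JV_mem ρ K m g.2 hv
  | succ j ih =>
    intro g hg
    have hg' : g ∈ Subgroup.closure {x : K | ∃ a ∈ lc K j, ∃ g : K, x = cm a g} := hg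
    refine Subgroup.closure_induction (p := fun (g : K) _ => ∀ m, ∀ v ∈ JV ρ K m,
      ρ (g : G) v - v ∈ JV ρ K (m + (j + 1) + 1)) ?_ ?_ ?_ ?_ hg'
    · rintro x ⟨a, ha, h, rfl⟩ m v hv
      set w := ρ ((a : G)⁻¹) (ρ ((h : G)⁻¹) v) with hw
      have hwm : w ∈ JV ρ K m := JV_stable ρ K m (inv_mem a.2) (JV_stable ρ K m (inv_mem h.2) hv)
      have e1 : ρ ((cm a h : K) : G) v = ρ (a : G) (ρ (h : G) w) := by
        rw [hw]
        simp only [cm, Subgroup.coe_mul, Subgroup.coe_inv, map_mul, Module.End.mul_apply]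
      have e2 : v = ρ (h : G) (ρ (a : G) w) := by
        rw [hw]
        rw [← Module.End.mul_apply (ρ (a : G)), ← map_mul, mul_inv_cancel, map_one,
          Module.End.one_apply, ← Module.End.mul_apply, ← map_mul, mul_inv_cancel, map_one,
          Module.End.one_apply]
      have h1 : ρ (h : G) w - w ∈ JV ρ K (m + 1) := JV_mem ρ K m h.2 hwm
      have h2 : ρ (a : G) w - w ∈ JV ρ K (m + j + 1) := ih a ha m w hwm
      have h3 : ρ (a : G) (ρ (h : G) w - w) - (ρ (h : G) w - w) ∈ JV ρ K (m + 1 + j + 1) :=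
        ih a ha (m + 1) _ h1
      have h4 : ρ (h : G) (ρ (a : G) w - w) - (ρ (a : G) w - w) ∈ JV ρ K (m + j + 1 + 1) :=
        JV_mem ρ K _ h.2 h2
      have e3 : ρ ((cm a h : K) : G) v - v =
          (ρ (a : G) (ρ (h : G) w - w) - (ρ (h : G) w - w))
          - (ρ (h : G) (ρ (a : G) w - w) - (ρ (a : G) w - w)) := by
        rw [e1]
        nth_rewrite 1 [e2]
        simp only [map_sub]
        abel
      rw [e3]
      have i1 : m + 1 + j + 1 = m + (j + 1) + 1 := by omega
      have i2 : m + j + 1 + 1 = m + (j + 1) + 1 := by omega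
      rw [i1] at h3
      rw [i2] at h4
      exact sub_mem h3 h4
    · intro m v _
      simp
    · intro x y _ _ hx hy m v hv
      have e1 : ρ ((x * y : K) : G) v - v = ρ (x : G) (ρ (y : G) v - v) + (ρ (x : G) v - v) := by
        simp only [Subgroup.coe_mul, map_mul, Module.End.mul_apply, map_sub]
        abel
      rw [e1]
      exact add_mem (JV_stable ρ K _ x.2 (hy m v hv)) (hx m v hv)
    · intro x _ hx m v hv
      have e1 : ρ ((x⁻¹ : K) : G) v - v = - ρ ((x⁻¹ : K) : G) (ρ (x : G) v - v) := by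
        rw [map_sub, ← Module.End.mul_apply, ← map_mul]
        simp
      rw [e1]
      exact neg_mem (JV_stable ρ K _ (x⁻¹ : K).2 (hx m v hv))

end CLSp

theorem cm_mul_left_of {G : Type} [Group G] (A : Subgroup G) [A.Normal]
    (hA : ∀ a ∈ A, ∀ b ∈ A, a * b = b * a) {a b : G} (ha : a ∈ A) (hb : b ∈ A) (g : G) :
    cm (a * b) g = cm a g * cm b g := by
  have h1 : cm b g ∈ A := by
    unfold cm
    have : b * g * b⁻¹ * g⁻¹ = b * (g * b⁻¹ * g⁻¹) := by group
    rw [this]
    exact mul_mem hb (Subgroup.Normal.conj_mem inferInstance _ (inv_mem hb) g)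
  have h2 : cm (a * b) g = a * cm b g * (g * a⁻¹ * g⁻¹) := by unfold cm; group
  have h3 : a * cm b g = cm b g * a := hA a ha _ h1
  have h4 : cm a g ∈ A := by
    unfold cm
    have : a * g * a⁻¹ * g⁻¹ = a * (g * a⁻¹ * g⁻¹) := by group
    rw [this]
    exact mul_mem ha (Subgroup.Normal.conj_mem inferInstance _ (inv_mem ha) g)
  rw [h2, h3]
  have h5 : cm b g * a * (g * a⁻¹ * g⁻¹) = cm b g * cm a g := by unfold cm; group
  rw [h5]
  exact hA _ h1 _ h4

theorem cm_mem {G : Type} [Group G] (A : Subgroup G) [A.Normal] {a : G} (ha : a ∈ A) (g : G) :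
    cm a g ∈ A := by
  unfold cm
  have : a * g * a⁻¹ * g⁻¹ = a * (g * a⁻¹ * g⁻¹) := by group
  rw [this]
  exact mul_mem ha (Subgroup.Normal.conj_mem inferInstance _ (inv_mem ha) g)

theorem foldl_cm_mul {G : Type} [Group G] (A : Subgroup G) [A.Normal]
    (hA : ∀ a ∈ A, ∀ b ∈ A, a * b = b * a) (l : List G) : ∀ a ∈ A, ∀ b ∈ A,
    l.foldl (fun (u g : G) => cm u g) (a * b) =
      l.foldl (fun (u g : G) => cm u g) a * l.foldl (fun (u g : G) => cm u g) b := by
  induction l with
  | nil => intro a _ b _; rfl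
  | cons g l ih =>
    intro a ha b hb
    simp only [List.foldl_cons]
    rw [cm_mul_left_of A hA ha hb, ih _ (cm_mem A ha g) _ (cm_mem A hb g)]

theorem foldl_cm_one {G : Type} [Group G] (l : List G) :
    l.foldl (fun (u g : G) => cm u g) (1 : G) = 1 := by
  induction l with
  | nil => rfl
  | cons g l ih =>
    simp only [List.foldl_cons]
    have : cm (1 : G) g = 1 := by unfold cm; group
    rw [this, ih]

/-- elements of `A` killed by all `j`-fold commutators with elements of `K` -/
def CT {G : Type} [Group G] (A K : Subgroup G) [A.Normal]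
    (hA : ∀ a ∈ A, ∀ b ∈ A, a * b = b * a) (j : ℕ) : Subgroup K where
  carrier := {a | (a : G) ∈ A ∧ ∀ l : List G, l.length = j → (∀ g ∈ l, g ∈ K) →
    l.foldl (fun (u g : G) => cm u g) (a : G) = 1}
  mul_mem' := by
    rintro a b ⟨ha, ha'⟩ ⟨hb, hb'⟩
    refine ⟨mul_mem ha hb, fun l hl hlK => ?_⟩
    rw [Subgroup.coe_mul, foldl_cm_mul A hA l _ ha _ hb, ha' l hl hlK, hb' l hl hlK, one_mul]
  one_mem' := ⟨one_mem _, fun l _ _ => foldl_cm_one l⟩
  inv_mem' := by
    rintro a ⟨ha, ha'⟩
    refine ⟨inv_mem ha, fun l hl hlK => ?_⟩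
    have h := foldl_cm_mul A hA l _ ha _ (inv_mem ha)
    rw [mul_inv_cancel, foldl_cm_one, ha' l hl hlK, one_mul] at h
    rw [Subgroup.coe_inv]
    exact h.symm

theorem t_CLS (hDUA : S_DUA) : S_CLS := by
  intro p N e _ hN he G _ _ A _ hA hcard hcent K hAK hJV
  obtain ⟨-, -, h3, -, h5⟩ := hDUA p N hN G A hA hcard
  have h5' := h5 K e hJV
  have key : ∀ i, i ≤ e → lc K (e - 1 + i) ≤ CT A K hA (e - i) := by
    intro i
    induction i with
    | zero =>
      intro _ g hg
      have hact := CLSp.lc_act (dr p N A) K (e - 1) g (by simpa using hg) 0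
      have hgA : (g : G) ∈ A := by
        apply hcent
        apply h3
        intro x
        have h := hact x (by show x ∈ (⊤ : Submodule _ _); trivial)
        have e1 : 0 + (e - 1) + 1 = e := by omega
        rw [e1, hJV, Submodule.mem_bot, sub_eq_zero] at h
        exact h
      refine ⟨hgA, fun l hl hlK => ?_⟩
      have hl' : l.length = e := by simpa using hl
      subst hl'
      have := h5' (g : G) hgA l.get (fun i => hlK _ (List.get_mem l i))
      rwa [List.ofFn_get] at this
    | succ i ih =>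
      intro hi
      have e1 : e - 1 + (i + 1) = (e - 1 + i) + 1 := by omega
      rw [e1]
      show Subgroup.closure _ ≤ _
      rw [Subgroup.closure_le]
      rintro x ⟨a, ha, g, rfl⟩
      obtain ⟨haA, hal⟩ := ih (by omega) ha
      refine ⟨?_, fun l hl hlK => ?_⟩
      · have : ((cm a g : K) : G) = cm (a : G) (g : G) := by
          simp [cm]
        rw [this]
        exact cm_mem A haA _
      · have : ((cm a g : K) : G) = cm (a : G) (g : G) := by
          simp [cm]
        rw [this]
        have := hal ((g : G) :: l) (by simp [hl]; omega) (by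
          intro h hh
          rcases List.mem_cons.mp hh with h1 | h1
          · rw [h1]; exact g.2
          · exact hlK h h1)
        simpa using this
  have hfin := key e le_rfl
  rw [eq_bot_iff]
  intro g hg
  have e1 : 2 * e - 1 = e - 1 + e := by omega
  rw [e1] at hg
  obtain ⟨-, h⟩ := hfin hg
  have := h [] (by simp) (by simp)
  rw [Subgroup.mem_bot]
  exact Subtype.ext (by simpa using this)

end H6.NE
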