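import Pool.Agent.H6.NE.TT
import Pool.Agent.H6.NE.CLS
import Pool.Agent.H6.NE.Stm2
import Pool.Agent.H6.NE.Stm3
import Pool.Agent.H2.KL.DUAL
import Pool.Agent.H11.NE.LH
import Pool.Agent.H11.NE.EX
import Pool.Agent.H12.NE.ABN
import Pool.Agent.H31.NE.GRC
import Pool.Agent.H32.NE.Cnt
import Pool.Agent.H32.NE.Stc
import Pool.Agent.H32.NE.Stg
import Pool.Agent.H37.NE.Dua
import Pool.Agent.H37.NE.Msl
import Pool.Agent.H37.NE.Res
import Pool.Agent.H41.NE.MS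
import Pool.Agent.H41.NE.INV
import Pool.Agent.H54.NE.LAY
import Pool.Agent.H54.NE.MOD
import Pool.Agent.H59.NE.LZ
import Pool.Agent.H61.NE.FR
import Pool.Agent.H61.NE.GR
import Pool.Agent.H62.NE.Mom
import Pool.Agent.H76.NE.KPU
import Pool.Agent.H76.NE.LEN
import Pool.Agent.H76.NE.NOD
import Pool.Agent.H76.NE.VDM
import Pool.Agent.H81.NE.PL
import Pool.Agent.H96.NE.CHN
import Pool.Agent.H97.NE.BND
import Pool.Agent.H97.NE.NIL
import Pool.Agent.H97.NE.NRM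
import Pool.Agent.H98.NE.SQF
import Pool.Agent.H98.NE.FRM

/-!
# NE: collection of the closed parts
-/

set_option autoImplicit false

namespace H6.NE.All

theorem LEN : S_LEN := H76.NE.t_LEN
theorem VDM : S_VDM := H76.NE.t_VDM
theorem NOD : S_NOD := H76.NE.t_NOD
theorem MI : S_MI := H62.NE.t_MI LEN
theorem AM : S_AM := H62.NE.t_AM LEN
theorem DEF : S_DEF := H62.NE.t_DEF LEN
theorem KPU : S_KPU := H76.NE.t_KPU LEN
theorem MSL : S_MSL := H37.NE.t_MSL LEN VDM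
theorem MS : S_MS := H41.NE.t_MS LEN VDM DEF MSL
theorem PL : S_PL := H81.NE.t_PL NOD
theorem LAY : S_LAY := H54.NE.t_LAY LEN NOD AM DEF PL
theorem EX : S_EX := H11.NE.t_EX
theorem TEI : S_TEI := H11.NE.t_TEI
theorem TT : S_TT := t_TT EX TEI
theorem LH1 : S_LH1 := H11.NE.t_LH1 TT VDM NOD
theorem LH2 : S_LH2 := H11.NE.t_LH2 TT VDM NOD
theorem NIL : S_NIL := H97.NE.t_NIL
theorem STG : S_STG := H32.NE.t_STG EX LH1
theorem STC : S_STC := H32.NE.t_STC STG LH1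
theorem RES : S_RES := H37.NE.t_RES STG
theorem NRM : S_NRM := H97.NE.t_NRM STG STC
theorem BND : S_BND := H97.NE.t_BND STC
theorem CNT : S_CNT := H32.NE.t_CNT KPU BND
theorem NEX : S_NEX := H96.NE.t_NEX PL CNT AM BND
theorem STA : S_STA := H96.NE.t_STA
theorem MODs (hSTEP : S_STEP) : S_MOD :=
  H54.NE.t_MOD (H96.NE.t_CHN STA (H96.NE.t_CST NRM NEX hSTEP NIL) NIL NRM) BND CNT LAY NIL STG
theorem GRC : S_GRC := H31.NE.t_GRC
theorem GR : S_GR := H61.NE.t_GR GRC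
theorem FR : S_FR := H61.NE.t_FR
theorem LZ : S_LZ := H59.NE.t_LZ GR GRC FR
theorem INV : S_INV := H41.NE.t_INV EX TT LH1
theorem SQF : S_SQF := H98.NE.t_SQF
theorem FRM : S_FRM := H98.NE.t_FRM MI SQF LEN
theorem ABN : S_ABN := H12.NE.t_ABN
theorem DUA : S_DUA := H37.NE.t_DUA H2.KL.t_DUAL
theorem CLS : S_CLS := t_CLS DUA

end H6.NE.All
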