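import Mathlib

/-!
# NE: p-groups with `2 e < p`: the irreducible representations of maximal degree are jointly faithful
(MP_895f30).  Definitions.  `R = ZMod (p ^ N)` throughout.
-/

set_option autoImplicit false

open Finset

namespace H6.NE

/-- the `p`-length of a finite type -/
noncomputable def ln (p : ℕ) (M : Type*) : ℕ := (Nat.card M).factorization p

/-- commutator `g h g⁻¹ h⁻¹` -/
def cm {G : Type} [Group G] (g h : G) : G := g * h * g⁻¹ * h⁻¹

/-- lower central series, `lc G 0 = ⊤`, `lc G (n+1) = [lc G n, G]` -/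
def lc (G : Type) [Group G] : ℕ → Subgroup G
  | 0 => ⊤
  | n + 1 => Subgroup.closure {x | ∃ a ∈ lc G n, ∃ g : G, x = cm a g}

section expo
variable (p N : ℕ) {S : Type} [Ring S] [Algebra (ZMod (p ^ N)) S]

/-- truncated exponential `∑_{i<p} x^i / i!` -/
noncomputable def ex (x : S) : S :=
  ∑ i ∈ Finset.range p, ((i.factorial : ZMod (p ^ N))⁻¹) • x ^ i

/-- the logarithms (in `J`) of the elements of `H` -/
def LH (J : Submodule (ZMod (p ^ N)) S) (H : Subgroup Sˣ) : Set S :=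
  {x | x ∈ J ∧ ∃ h ∈ H, ((h : Sˣ) : S) = ex p N x}

/-- the span of the logarithms (equal to `LH` in the unipotent situation) -/
noncomputable def LHm (J : Submodule (ZMod (p ^ N)) S) (H : Subgroup Sˣ) :
    Submodule (ZMod (p ^ N)) S := Submodule.span _ (LH p N J H)

/-- unipotent situation: `H` inside `1 + J`, `J^(c+1) = 0`, `c < p` -/
structure Uni (c : ℕ) (J : Submodule (ZMod (p ^ N)) S) (H : Subgroup Sˣ) : Prop where
  mul : J * J ≤ J
  lt : c < p
  nil : J ^ (c + 1) = ⊥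
  sub : ∀ h ∈ H, ((h : Sˣ) : S) - 1 ∈ J

end expo

section bil
variable {p N : ℕ}

/-- the stabiliser of `v` for a bilinear map -/
def Sv {k V W : Type} [AddCommGroup k] [Module (ZMod (p ^ N)) k] [AddCommGroup V]
    [Module (ZMod (p ^ N)) V] [AddCommGroup W] [Module (ZMod (p ^ N)) W]
    (b : k →ₗ[ZMod (p ^ N)] V →ₗ[ZMod (p ^ N)] W) (v : V) : Submodule (ZMod (p ^ N)) k :=
  LinearMap.ker (b.flip v)

theorem mem_Sv {k V W : Type} [AddCommGroup k] [Module (ZMod (p ^ N)) k] [AddCommGroup V]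
    [Module (ZMod (p ^ N)) V] [AddCommGroup W] [Module (ZMod (p ^ N)) W]
    (b : k →ₗ[ZMod (p ^ N)] V →ₗ[ZMod (p ^ N)] W) (v : V) (y : k) :
    y ∈ Sv b v ↔ b y v = 0 := by
  simp [Sv, LinearMap.mem_ker]

/-- nodes: pairwise differences are units -/
def Nd (T : Finset (ZMod (p ^ N))) : Prop := ∀ s ∈ T, ∀ t ∈ T, s ≠ t → IsUnit (s - t)

/-- polynomials `y(t) = ∑_{j<n} t^j y_j` with `y(t) (x + t u) = 0` -/
def KP {k V W : Type} [AddCommGroup k] [Module (ZMod (p ^ N)) k] [AddCommGroup V]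
    [Module (ZMod (p ^ N)) V] [AddCommGroup W] [Module (ZMod (p ^ N)) W]
    (b : k →ₗ[ZMod (p ^ N)] V →ₗ[ZMod (p ^ N)] W) (x u : V) (n : ℕ) :
    Submodule (ZMod (p ^ N)) (ℕ → k) where
  carrier := {y | (∀ j, n ≤ j → y j = 0) ∧ b (y 0) x = 0 ∧ ∀ j, b (y (j + 1)) x + b (y j) u = 0}
  add_mem' := by
    rintro y z ⟨h1, h2, h3⟩ ⟨k1, k2, k3⟩
    refine ⟨fun j hj => by simp [h1 j hj, k1 j hj], by simp [h2, k2], fun j => ?_⟩
    have := h3 j
    have := k3 j
    simp only [Pi.add_apply, map_add, LinearMap.add_apply]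
    calc _ = (b (y (j + 1)) x + b (y j) u) + (b (z (j + 1)) x + b (z j) u) := by abel
      _ = 0 := by rw [h3 j, k3 j, add_zero]
  zero_mem' := by simp
  smul_mem' := by
    rintro c y ⟨h1, h2, h3⟩
    refine ⟨fun j hj => by simp [h1 j hj], by simp [h2], fun j => ?_⟩
    simp only [Pi.smul_apply, map_smul, LinearMap.smul_apply]
    rw [← smul_add, h3 j, smul_zero]

end bil

section rep
variable {p N : ℕ} {G V : Type} [Group G] [AddCommGroup V] [Module (ZMod (p ^ N)) V]

/-- `JV ρ K m`: span of all `(k_1 - 1) ... (k_m - 1) v` -/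
noncomputable def JV (ρ : Representation (ZMod (p ^ N)) G V) (K : Subgroup G) :
    ℕ → Submodule (ZMod (p ^ N)) V
  | 0 => ⊤
  | m + 1 => Submodule.span _ {w | ∃ k ∈ K, ∃ v ∈ JV ρ K m, w = ρ k v - v}

/-- the span of the operators `ρ k - 1` -/
noncomputable def JE (ρ : Representation (ZMod (p ^ N)) G V) (K : Subgroup G) :
    Submodule (ZMod (p ^ N)) (Module.End (ZMod (p ^ N)) V) :=
  Submodule.span _ {y | ∃ k ∈ K, y = (ρ k : Module.End (ZMod (p ^ N)) V) - 1}

/-- the units `ρ k`, `k ∈ K` -/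
noncomputable def UK (ρ : Representation (ZMod (p ^ N)) G V) (K : Subgroup G) :
    Subgroup (Module.End (ZMod (p ^ N)) V)ˣ :=
  K.map (MonoidHom.toHomUnits (ρ : G →* Module.End (ZMod (p ^ N)) V))

/-- the logarithms of `K` acting on `V` -/
noncomputable def LG (ρ : Representation (ZMod (p ^ N)) G V) (K : Subgroup G) :
    Submodule (ZMod (p ^ N)) (Module.End (ZMod (p ^ N)) V) :=
  LHm p N (JE ρ K) (UK ρ K)

/-- `LG ρ K` acting on `V`, as a bilinear map -/
noncomputable def bl (ρ : Representation (ZMod (p ^ N)) G V) (K : Subgroup G) :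
    LG ρ K →ₗ[ZMod (p ^ N)] V →ₗ[ZMod (p ^ N)] V := (LG ρ K).subtype

/-- stabiliser of `v` in `LG ρ K` -/
noncomputable def SG (ρ : Representation (ZMod (p ^ N)) G V) (K : Subgroup G) (v : V) :
    Submodule (ZMod (p ^ N)) (LG ρ K) := Sv (bl ρ K) v

/-- `v` has a `K`-orbit of maximal size -/
def Mxx (ρ : Representation (ZMod (p ^ N)) G V) (K : Subgroup G) (v : V) : Prop :=
  ∀ w, ln p (SG ρ K v) ≤ ln p (SG ρ K w)

/-- subgroup generated by the stabilisers in `K` of all maximal elements -/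
def Kn (ρ : Representation (ZMod (p ^ N)) G V) (K : Subgroup G) : Subgroup G :=
  Subgroup.closure {k | k ∈ K ∧ ∃ v, Mxx ρ K v ∧ ρ k v = v}

/-- stabiliser in `G` -/
def stb (ρ : Representation (ZMod (p ^ N)) G V) (v : V) : Subgroup G where
  carrier := {g | ρ g v = v}
  mul_mem' := by
    intro a b ha hb
    simp only [Set.mem_ofPred_eq] at *
    rw [map_mul, Module.End.mul_apply, hb, ha]
  one_mem' := by simp
  inv_mem' := by
    intro a ha
    simp only [Set.mem_ofPred_eq] at *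
    have h : ρ a⁻¹ (ρ a v) = v := by
      rw [← Module.End.mul_apply, ← map_mul, inv_mul_cancel, map_one]; rfl
    rwa [ha] at h

/-- quotient representation -/
noncomputable def qr (ρ : Representation (ZMod (p ^ N)) G V) (F : Submodule (ZMod (p ^ N)) V)
    (hF : ∀ g, F ≤ F.comap (ρ g)) : Representation (ZMod (p ^ N)) G (V ⧸ F) where
  toFun g := F.mapQ F (ρ g) (hF g)
  map_one' := by
    ext v
    simp
  map_mul' := by
    intro a b
    ext v
    simp

theorem qr_mk (ρ : Representation (ZMod (p ^ N)) G V) (F : Submodule (ZMod (p ^ N)) V)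
    (hF : ∀ g, F ≤ F.comap (ρ g)) (g : G) (v : V) :
    qr ρ F hF g (F.mkQ v) = F.mkQ (ρ g v) := rfl

/-- all `G`-orbits have size at most `p^e` -/
def Orb (ρ : Representation (ZMod (p ^ N)) G V) (e : ℕ) : Prop :=
  ∀ v, ((stb ρ v).index).factorization p ≤ e

/-- the invariant of the chain -/
structure Inv (ρ : Representation (ZMod (p ^ N)) G V) (e : ℕ) (K : Subgroup G)
    (F : Submodule (ZMod (p ^ N)) V) (hF : ∀ g, F ≤ F.comap (ρ g)) (Gd : Set V) (r : ℕ) :
    Prop where
  nor : K.Normal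
  hJ : JV ρ K (p - 1) ≤ F
  ne : Gd.Nonempty
  sc : ∀ a : ZMod (p ^ N), IsUnit a → ∀ v ∈ Gd, a • v ∈ Gd
  mx : ∀ u ∈ Gd, Mxx (qr ρ F hF) K (F.mkQ u)
  st : ∀ u ∈ Gd, ∀ g, ρ g u = u → g ∈ K
  cnt : ∀ u ∈ Gd, ∀ x, ∀ T : Finset (ZMod (p ^ N)), Nd T → T.card ≤ e + 1 →
    (∀ s ∈ T, x + s • u ∉ Gd) →
    T.card + e * ln p (SG (qr ρ F hF) K (F.mkQ u)) ≤
      r + ln p (KP (bl (qr ρ F hF) K) (F.mkQ x) (F.mkQ u) e)
  idx : ∀ u ∈ Gd, r + ln p (SG (qr ρ F hF) K (F.mkQ u)) =
    (K.index).factorization p + ln p (LG (qr ρ F hF) K)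

end rep

section kir
variable {p N : ℕ} {S : Type} [Ring S] [Algebra (ZMod (p ^ N)) S]

open Classical in
/-- value of a functional on a submodule, extended by `0` -/
noncomputable def ap {L : Submodule (ZMod (p ^ N)) S} (f : L →ₗ[ZMod (p ^ N)] ZMod (p ^ N))
    (y : S) : ZMod (p ^ N) := if h : y ∈ L then f ⟨y, h⟩ else 0

/-- the radical of `f([x,y])` on `L` -/
def RadS {L : Submodule (ZMod (p ^ N)) S} (f : L →ₗ[ZMod (p ^ N)] ZMod (p ^ N)) : Set S :=
  {x | x ∈ L ∧ ∀ y ∈ L, ap f (x * y - y * x) = 0}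

/-- character of a representation -/
noncomputable def chr {G W : Type} [Group G] [AddCommGroup W] [Module ℂ W]
    (rep : Representation ℂ G W) (g : G) : ℂ := LinearMap.trace ℂ W (rep g)

/-- `χ : G → ℂ` is an irreducible character -/
def IsIrr {G : Type} [Group G] (χ : G → ℂ) : Prop :=
  ∃ (W : Type) (_ : AddCommGroup W) (_ : Module ℂ W) (_ : FiniteDimensional ℂ W)
    (rep : Representation ℂ G W), rep.IsIrreducible ∧ ∀ g, χ g = chr rep g

/-- Kirillov's character formula for `f` on `H` -/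
def CF [NeZero (p ^ N)] (J : Submodule (ZMod (p ^ N)) S) (H : Subgroup Sˣ) [Fintype H]
    (f : LHm p N J H →ₗ[ZMod (p ^ N)] ZMod (p ^ N)) (m : ℕ) (χ : H → ℂ) : Prop :=
  m ^ 2 * Nat.card (RadS f) = Nat.card (LHm p N J H) ∧
  ∀ x ∈ LHm p N J H, ∀ g : H, (((g : Sˣ)) : S) = ex p N x →
    (Fintype.card H : ℂ) * χ g =
      (m : ℂ) * ∑ h : H, (ZMod.stdAddChar (N := p ^ N)
        (ap f ((((h : Sˣ)⁻¹ : Sˣ) : S) * x * ((h : Sˣ) : S))) : ℂ)

end kir

section dual
variable {p N : ℕ} {G : Type} [Group G]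

/-- the dual module of the normal subgroup `A` -/
abbrev Dl (p N : ℕ) {G : Type} [Group G] (A : Subgroup G) : Type := Additive A →+ ZMod (p ^ N)

/-- conjugation on the dual of `A` -/
noncomputable def dr (p N : ℕ) {G : Type} [Group G] (A : Subgroup G) [A.Normal] :
    Representation (ZMod (p ^ N)) G (Dl p N A) where
  toFun g :=
    { toFun := fun x => x.comp (MonoidHom.toAdditive (MulAut.conjNormal (H := A) g⁻¹).toMonoidHom)
      map_add' := by intro x y; rfl
      map_smul' := by intro c x; rfl }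
  map_one' := by
    ext x a
    simp
  map_mul' := by
    intro g h
    ext x a
    simp

/-- eigenspace of `A` (mapped to `Γ` by `j`) in a representation -/
noncomputable def eig {Γ A W : Type} [Group Γ] [Group A] [AddCommGroup W] [Module ℂ W]
    {p N : ℕ} [NeZero (p ^ N)] (rep : Representation ℂ Γ W) (j : A →* Γ)
    (x : Additive A →+ ZMod (p ^ N)) : Submodule ℂ W where
  carrier := {w | ∀ a : A, rep (j a) w = (ZMod.stdAddChar (N := p ^ N) (x (Additive.ofMul a)) : ℂ) • w}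
  add_mem' := by
    intro s t hs ht a
    rw [map_add, hs a, ht a, smul_add]
  zero_mem' := by intro a; simp
  smul_mem' := by
    intro c s hs a
    rw [map_smul, hs a, smul_comm]

end dual

end H6.NE
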