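import Pool.Agent.H6.NE.Defs

/-!
# NE: statements of the parts, linear algebra and exponentials.
Each part proves `theorem t_XX (deps : S_YY ...) : S_XX`.  Notation in the proofs: `len = ln p`,
`S(v) = Sv b v = {y : y v = 0}`; all groups are finite `Z/p^N`-modules, so `len` is additive in exact
sequences and `M' < M` implies `len M' < len M`.
-/

set_option autoImplicit false

open Finset

namespace H6.NE

/-- LEN: basic facts on `ln`.  (Cardinalities; every finite module over `ZMod (p^N)` is a `p`-group.) -/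
def S_LEN : Prop := ∀ (p N : ℕ) [Fact p.Prime],
  (∀ (M M' : Type) [AddCommGroup M] [Module (ZMod (p ^ N)) M] [Finite M] [AddCommGroup M']
    [Module (ZMod (p ^ N)) M'] (f : M →ₗ[ZMod (p ^ N)] M'),
    ln p M = ln p (LinearMap.ker f) + ln p (LinearMap.range f)) ∧
  (∀ (M : Type) [AddCommGroup M] [Module (ZMod (p ^ N)) M] [Finite M]
    (A : Submodule (ZMod (p ^ N)) M), ln p M = ln p A + ln p (M ⧸ A)) ∧
  (∀ (M : Type) [AddCommGroup M] [Module (ZMod (p ^ N)) M] [Finite M], Nat.card M = p ^ ln p M) ∧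
  (∀ (M : Type) [AddCommGroup M] [Module (ZMod (p ^ N)) M] [Finite M]
    (A B : Submodule (ZMod (p ^ N)) M), A ≤ B → ln p A ≤ ln p B) ∧
  (∀ (M : Type) [AddCommGroup M] [Module (ZMod (p ^ N)) M] [Finite M]
    (A B : Submodule (ZMod (p ^ N)) M), A ≤ B → ln p B ≤ ln p A → A = B) ∧
  (∀ (M M' : Type) [AddCommGroup M] [Module (ZMod (p ^ N)) M] [Finite M] [AddCommGroup M']
    [Module (ZMod (p ^ N)) M'] [Finite M'] (f : M →ₗ[ZMod (p ^ N)] M'),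
    Function.Injective f → ln p M ≤ ln p M') ∧
  (∀ (M : Type) [AddCommGroup M] [Module (ZMod (p ^ N)) M] [Finite M] (I : Type) [Fintype I],
    ln p (I → M) = Fintype.card I * ln p M) ∧
  (∀ (M M' : Type) [AddCommGroup M] [Module (ZMod (p ^ N)) M] [Finite M] [AddCommGroup M']
    [Module (ZMod (p ^ N)) M'] [Finite M'], ln p (M × M') = ln p M + ln p M')

/-- VDM (Vandermonde): a polynomial of degree `< n` with values in `Q` at `n` nodes has its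
coefficients in `Q`.  (The Vandermonde determinant is a product of units; or Lagrange.) -/
def S_VDM : Prop := ∀ (p N : ℕ) [Fact p.Prime] (M : Type) [AddCommGroup M]
  [Module (ZMod (p ^ N)) M] (Q : Submodule (ZMod (p ^ N)) M) (n : ℕ) (y : ℕ → M)
  (T : Finset (ZMod (p ^ N))), Nd T → n ≤ T.card →
  (∀ s ∈ T, ∑ j ∈ Finset.range n, s ^ j • y j ∈ Q) → ∀ j < n, y j ∈ Q

/-- NOD: there are `p` nodes, never more. (`0, ..., p-1`.) -/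
def S_NOD : Prop := ∀ (p N : ℕ) [Fact p.Prime], 0 < N →
  Nd (p := p) (N := N) ((Finset.range p).image (fun i : ℕ => (i : ZMod (p ^ N)))) ∧
  ((Finset.range p).image (fun i : ℕ => (i : ZMod (p ^ N)))).card = p ∧
  (∀ T : Finset (ZMod (p ^ N)), Nd T → T.card ≤ p) ∧
  (∀ i : ℕ, 0 < i → i < p → IsUnit (i : ZMod (p ^ N)))

/-- AM (augmented moment inequality).  Let `κ = len S(u)`, `T = T1 ∪ T2`, `t = |T|` (`T` nonempty, else
trivial).  Tuples `(y_s)`, `y_s ∈ S(x + s u)`, have moments `m_i = ∑_s s^i y_s`, `0 ≤ i < t`; the map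
is injective (VDM) and `m_i x + m_(i+1) u = 0` for `i + 1 < t`.  Given `m_i`, `m_(i+1)` lies in a coset
of `S(u)`.
If `T2 = ∅`: `t (κ+1) ≤ len k + (t-1) κ`.
If `T2 ≠ ∅`, `T1 ≠ ∅`: modulo `B` only `s ∈ T1` contributes, so the moments mod `B` satisfy the
linear recurrence with characteristic polynomial `∏_{s ∈ T1} (X - s)`: for `i ≥ |T1|` the class of
`m_i` mod `B` is determined by the earlier ones, so `m_i` lies in a coset of `S(u) ∩ B`, of length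
`≤ κ - 1`.  Total: `|T1|(κ+1) + |T2| κ ≤ len k + (|T1|-1) κ + |T2| (κ-1)`.
If `T1 = ∅`: all `m_i ∈ B`, `|T2| κ ≤ len B + (|T2|-1)(κ-1)`, `len B ≤ len k - 1`. -/
def S_AM : Prop := ∀ (p N : ℕ) [Fact p.Prime] (k V W : Type) [AddCommGroup k]
  [Module (ZMod (p ^ N)) k] [Finite k] [AddCommGroup V] [Module (ZMod (p ^ N)) V] [AddCommGroup W]
  [Module (ZMod (p ^ N)) W] (b : k →ₗ[ZMod (p ^ N)] V →ₗ[ZMod (p ^ N)] W)
  (B : Submodule (ZMod (p ^ N)) k) (x u : V) (T1 T2 : Finset (ZMod (p ^ N))), Disjoint T1 T2 →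
  (∀ s ∈ T1 ∪ T2, ∀ t ∈ T1 ∪ T2, s ≠ t → IsUnit (s - t)) → (T2 = ∅ ∨ ¬ Sv b u ≤ B) →
  (∀ s ∈ T1, ln p (Sv b u) + 1 ≤ ln p (Sv b (x + s • u))) →
  (∀ s ∈ T2, ln p (Sv b u) ≤ ln p (Sv b (x + s • u)) ∧ Sv b (x + s • u) ≤ B) →
  T1.card + T2.card + ln p (Sv b u) ≤ ln p k

/-- MI (moment inequality).  Tuples `(y_s)_{s ∈ T}`, `y_s ∈ S(x + s u)`, inject (VDM) by the moments
`m_i = ∑ s^i y_s` (`0 ≤ i < |T|`) into `{(m_i) : m_i x + m_(i+1) u = 0}`, of length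
`≤ len k + (|T| - 1) len S(u)`. -/
def S_MI : Prop := ∀ (p N : ℕ) [Fact p.Prime] (k V W : Type) [AddCommGroup k]
  [Module (ZMod (p ^ N)) k] [Finite k] [AddCommGroup V] [Module (ZMod (p ^ N)) V] [AddCommGroup W]
  [Module (ZMod (p ^ N)) W] (b : k →ₗ[ZMod (p ^ N)] V →ₗ[ZMod (p ^ N)] W)
  (x u : V) (T : Finset (ZMod (p ^ N))), Nd T →
  ∑ s ∈ T, ln p (Sv b (x + s • u)) + ln p (Sv b u) ≤ ln p k + T.card * ln p (Sv b u)

/-- DEF (chains extend).  Put `κ = len S(u)`, `t = |T|`, `ρ = len k - κ`.  If `k x ⊆ k u` trivial.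
Otherwise `k' = {m : m x ∈ k u}` has `len k' < len k`.  Let `C_l` be the module of chains
`(m_0,...,m_l)`, `m_0 u = 0`, `m_i x + m_(i+1) u = 0`; `len C_l = len C_(l-1) + κ - f_l` where `f_l` is
the length of `C_(l-1)` modulo the extendable chains; `(m) ↦ (0, m)` shows `f_l ≤ f_(l+1)`.  Tuples
`(y_s)_{s ∈ T}` in `∏ S(x+su)` inject by moments into `{(m_0..m_(t-1)) : m_i x + m_(i+1) u = 0}`, whose
projection to `m_0` is in `k'` with kernel `C_(t-2)`.  So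
`t κ ≤ len k' + (t-1) κ - ∑_{l=1}^{t-2} f_l`, i.e. `∑ f_l ≤ ρ - 1`, and `f_l ≥ 1` forces
`t - 1 - l ≤ ρ - 1`.  Here the chain has `l + 1` elements `m 0, ..., m l` and `l + 1 ≤ t - 1 - ρ`.
(If `l + 1 = t - 1` then `ρ = 0`, all `S(x + s u) = k = S(u)`, so `k x = 0`.) -/
def S_DEF : Prop := ∀ (p N : ℕ) [Fact p.Prime] (k V W : Type) [AddCommGroup k]
  [Module (ZMod (p ^ N)) k] [Finite k] [AddCommGroup V] [Module (ZMod (p ^ N)) V] [AddCommGroup W]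
  [Module (ZMod (p ^ N)) W] (b : k →ₗ[ZMod (p ^ N)] V →ₗ[ZMod (p ^ N)] W)
  (x u : V) (T : Finset (ZMod (p ^ N))), Nd T →
  (∀ s ∈ T, ln p (Sv b u) ≤ ln p (Sv b (x + s • u))) →
  ∀ (l : ℕ) (m : ℕ → k), l + ln p k + 2 ≤ T.card + ln p (Sv b u) →
  b (m 0) u = 0 → (∀ i < l, b (m i) x + b (m (i + 1)) u = 0) →
  ∃ m' : k, b (m l) x + b m' u = 0

/-- KPU: `len KP_n ≤ n len S(u)`: the top coefficient `y_(n-1)` lies in `S(u)`, the kernel of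
`y ↦ y_(n-1)` is `KP_(n-1)`. Also `KP_n` is finite. -/
def S_KPU : Prop := ∀ (p N : ℕ) [Fact p.Prime] (k V W : Type) [AddCommGroup k]
  [Module (ZMod (p ^ N)) k] [Finite k] [AddCommGroup V] [Module (ZMod (p ^ N)) V] [AddCommGroup W]
  [Module (ZMod (p ^ N)) W] (b : k →ₗ[ZMod (p ^ N)] V →ₗ[ZMod (p ^ N)] W) (x u : V) (n : ℕ),
  Finite (KP b x u n) ∧ ln p (KP b x u n) ≤ n * ln p (Sv b u)

/-- MSL: first half of the mixing step.  If at `n` nodes the stabilisers lie in `range res` then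
`KP` has its coefficients in `range res` (VDM), so its preimage in `(k')^n` has length
`len KP + n len ker res`. -/
def S_MSL : Prop := ∀ (p N : ℕ) [Fact p.Prime] (k V W k' : Type) [AddCommGroup k]
  [Module (ZMod (p ^ N)) k] [Finite k] [AddCommGroup V] [Module (ZMod (p ^ N)) V] [AddCommGroup W]
  [Module (ZMod (p ^ N)) W] [AddCommGroup k'] [Module (ZMod (p ^ N)) k'] [Finite k']
  (b : k →ₗ[ZMod (p ^ N)] V →ₗ[ZMod (p ^ N)] W) (res : k' →ₗ[ZMod (p ^ N)] k) (x u : V) (n : ℕ)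
  (T0 : Finset (ZMod (p ^ N))), Nd T0 → n ≤ T0.card →
  (∀ s ∈ T0, Sv b (x + s • u) ≤ LinearMap.range res) →
  ∀ Q : Submodule (ZMod (p ^ N)) (ℕ → k'),
  (∀ y : ℕ → k', y ∈ Q ↔ (∀ j, n ≤ j → y j = 0) ∧ (fun j => res (y j)) ∈ KP b x u n) →
  Finite Q ∧ ln p Q = ln p (KP b x u n) + n * ln p (LinearMap.ker res)

/-- MS (mixing step).  `κ = len Sv b (π u)`, `κ' = len Sv b' u`, `d = κ + len ker res - κ'`.
Let `Q` be the module of MSL (for `π x, π u`) and `Φ : Q → V'[t]`, `y ↦ y(t)(x + t u)`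
(coefficients `w_i = y_i x + y_(i-1) u`, `0 ≤ i ≤ n`, `y_(-1) = 0 = y_n`), kernel `KP b' x u n`, image
`I` with coefficients in `ker π`.  Evaluate `I` at the nodes `s ∈ B`: `w(s) = y(s)(x + s u)` with
`res y(s) ∈ Sv b (π(x + s u)) ≤ range res`, a module of `y(s)` of length `κ + len ker res`, so the values form a
module of length `≤ κ + len ker res - len Sv b' (x+su) ≤ d - 1`.  The elements of `I` vanishing at `B`
have degree `≥ |B|` or are `0` (VDM), and for each degree `j` the leading coefficients `w_j` of the elements of `I`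
of degree `≤ j` lie in `{m u : m ∈ k', res m (π u) = 0}`, of length `d`: the chain
`y_(n-1), ..., y_j` (`y_(n-1) u = 0`, `y_i x + y_(i-1) u = 0`) extends by DEF: `y_j x = - m' u`, so
`w_j = (y_(j-1) - m') u`, and `π w_j = 0`.  Hence `len I ≤ |B| (d-1) + (n+1-|B|) d` and
`len KP' = len Q - len I`. Uses LEN, VDM, DEF, MSL. -/
def S_MS : Prop := ∀ (p N : ℕ) [Fact p.Prime] (k V k' V' : Type) [AddCommGroup k]
  [Module (ZMod (p ^ N)) k] [Finite k] [AddCommGroup V] [Module (ZMod (p ^ N)) V]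
  [AddCommGroup k'] [Module (ZMod (p ^ N)) k'] [Finite k'] [AddCommGroup V']
  [Module (ZMod (p ^ N)) V'] [Finite V'] (b : k →ₗ[ZMod (p ^ N)] V →ₗ[ZMod (p ^ N)] V)
  (b' : k' →ₗ[ZMod (p ^ N)] V' →ₗ[ZMod (p ^ N)] V') (π : V' →ₗ[ZMod (p ^ N)] V)
  (res : k' →ₗ[ZMod (p ^ N)] k), (∀ y v, π (b' y v) = b (res y) (π v)) →
  ∀ (x u : V') (n : ℕ) (T0 B T : Finset (ZMod (p ^ N))), Nd T0 → n ≤ T0.card →
  (∀ s ∈ T0, Sv b (π (x + s • u)) ≤ LinearMap.range res) →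
  Sv b (π u) ≤ LinearMap.range res → Nd B → B.card ≤ n + 1 →
  (∀ s ∈ B, Sv b (π (x + s • u)) ≤ LinearMap.range res ∧
    ln p (Sv b (π (x + s • u))) = ln p (Sv b (π u)) ∧
    ln p (Sv b' u) + 1 ≤ ln p (Sv b' (x + s • u))) →
  Nd T → (∀ s ∈ T, ln p (Sv b' u) ≤ ln p (Sv b' (x + s • u))) →
  n + ln p k' + 1 ≤ T.card + ln p (Sv b' u) →
  ln p (KP b (π x) (π u) n) + (n + 1) * ln p (Sv b' u) + B.card ≤
    ln p (KP b' x u n) + (n + 1) * ln p (Sv b (π u)) + ln p (LinearMap.ker res)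

/-- PL (pencil lemma).  If `P2 u1` or `P1 u2` done.  Otherwise put `x_s = u2 + s u1`, `0 ≤ s < p`.
`{s : ¬ P1 x_s}` contains `0` and has at most `r1` elements.  `{0} ∪ {s⁻¹ : 1 ≤ s < p, ¬ P2 x_s}` are
nodes with `¬ P2 (u1 + s⁻¹ u2)` (scaling by units; `s⁻¹ - t⁻¹ = (t - s)/(s t)`), at most `r2`.  So at most
`r1 + r2 - 2 < p - 1` of the `s ≠ 0` are bad. Uses NOD. -/
def S_PL : Prop := ∀ (p N : ℕ) [Fact p.Prime], 0 < N → ∀ (V : Type) [AddCommGroup V]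
  [Module (ZMod (p ^ N)) V] (P1 P2 : V → Prop),
  (∀ a : ZMod (p ^ N), IsUnit a → ∀ v, P1 v → P1 (a • v)) →
  (∀ a : ZMod (p ^ N), IsUnit a → ∀ v, P2 v → P2 (a • v)) →
  ∀ (u1 u2 : V) (r1 r2 : ℕ), P1 u1 → P2 u2 →
  (∀ (x : V) (T : Finset (ZMod (p ^ N))), Nd T → (∀ s ∈ T, ¬ P1 (x + s • u1)) → T.card ≤ r1) →
  (∀ (x : V) (T : Finset (ZMod (p ^ N))), Nd T → (∀ s ∈ T, ¬ P2 (x + s • u2)) → T.card ≤ r2) →
  r1 + r2 ≤ p → ∃ x, P1 x ∧ P2 x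

/-- LAY (layers).  `κ` = least `len S(v)`, `ρ = len k - κ`.  For `i` let `b_i : k → V → V / Vj i`,
`κ_i` = least `len Sv b_i`, `α_i = len k - κ_i ≤ ρ`, `α_1 = 0`.  Claim: `α_(j+2) ≥ α_(j+1) + 1` for
`j < M`; hence `M ≤ α_(M+1) ≤ ρ`.  Proof of the claim: `B = {y : y (Vj j) ⊆ Vj (j+2)}`.
(a) there is `u` with `Mx u`, `S(u) ⊄ B` and `u` attains `κ_(j+2)`: PL with `P1 v = Mx v ∧ ¬ S(v) ≤ B`
(nonempty by `hgen`; at most `ρ` bad nodes by AM with `T1` = the non-maximal, `T2` = the maximal with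
`S ≤ B`), `P2` = attains `κ_(j+2)` (AM with `T2 = ∅`).
(b) suppose `α_(j+2) = α_(j+1)`. By PL there is `x` attaining `κ_(j+1)` and attaining `κ_(j+2)` with
`Sv b_(j+2) x ⊄ B` (`S(u) ≤ Sv b_(j+2) u`, AM for `b_(j+2)`).
(c) `Sv b_(j+2) x ≤ Sv b_(j+1) x`, same length, so equal. Take `y ∈ Sv b_(j+2) x`, `w ∈ Vj j` with
`y w ∉ Vj (j+2)`; by DEF (`l = 0`, for `b_(j+2)`, `u := x`, `x := w`, `T` the `p` nodes) `y w ∈ k x + Vj (j+2)`: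
`y w = m x + w'`; `y w ∈ Vj (j+1)` so `m ∈ Sv b_(j+1) x = Sv b_(j+2) x` and `y w ∈ Vj (j+2)`,
contradiction. Uses LEN, NOD, AM, DEF, PL. -/
def S_LAY : Prop := ∀ (p N : ℕ) [Fact p.Prime], 0 < N → ∀ (k V : Type) [AddCommGroup k]
  [Module (ZMod (p ^ N)) k] [Finite k] [AddCommGroup V] [Module (ZMod (p ^ N)) V] [Finite V]
  (b : k →ₗ[ZMod (p ^ N)] V →ₗ[ZMod (p ^ N)] V) (Vj : ℕ → Submodule (ZMod (p ^ N)) V) (ρ M : ℕ),
  Vj 0 = ⊤ → (∀ j, Vj (j + 1) ≤ Vj j) → (∀ y j, ∀ v ∈ Vj j, b y v ∈ Vj (j + 1)) →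
  (∀ v, ln p k ≤ ln p (Sv b v) + ρ) → 2 * ρ ≤ p → ρ + 2 ≤ p →
  (∀ j < M, ∃ v, (∀ w, ln p (Sv b v) ≤ ln p (Sv b w)) ∧
    ∃ y ∈ Sv b v, ∃ w ∈ Vj j, b y w ∉ Vj (j + 2)) → M ≤ ρ

/-- EX: the truncated exponential on `J`, `J^(c+1) = 0`, `c < p`.
(1) binomial theorem, `x^i y^j = 0` for `i + j ≥ p`. (2) clear. (3) uniqueness: if `x - y ∈ J^m`, `m ≥ 1`, then
`ex x - ex y - (x - y) ∈ J^(m+1)`. (4) existence, with `x` in the algebra spanned by the powers of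
`h - 1` (work in `J' = span {(h-1)^k : k ≥ 1}`): if `h = ex x * (1 + d)`, `d ∈ J'^m`, then
`ex (x + d) ≡ ex x + d` mod `J'^(m+1)`. (5) `ex x - 1 = x * w = w * x`, `w` a unit commuting with `x`. -/
def S_EX : Prop := ∀ (p N c : ℕ) [Fact p.Prime] (S : Type) [Ring S] [Algebra (ZMod (p ^ N)) S]
  (J : Submodule (ZMod (p ^ N)) S), J * J ≤ J → c < p → J ^ (c + 1) = ⊥ →
  (∀ x ∈ J, ∀ y ∈ J, Commute x y → ex p N (x + y) = ex p N x * ex p N y) ∧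
  (∀ x ∈ J, ex p N x - 1 ∈ J ∧ ex p N x - 1 - x ∈ J ^ 2) ∧
  (∀ x ∈ J, ∀ y ∈ J, ex p N x = ex p N y → x = y) ∧
  (∀ h : S, h - 1 ∈ J → ∃ x ∈ J, ex p N x = h ∧ (∀ z : S, Commute z h → Commute z x)) ∧
  (∀ x ∈ J, ∃ w : Sˣ, Commute (w : S) x ∧ ex p N x - 1 = x * (w : S)) ∧
  (∀ h : Sˣ, ∀ x : S, ex p N ((h : S) * x * ((h⁻¹ : Sˣ) : S)) =
    (h : S) * ex p N x * ((h⁻¹ : Sˣ) : S)) ∧
  (∀ x ∈ J, ∀ h : Sˣ, (h : S) = ex p N x →
    h ^ (p ^ N) = 1 ∧ ∀ n : ℕ, ((h ^ n : Sˣ) : S) = ex p N ((n : ZMod (p ^ N)) • x))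

/-- TEI: a primitive `(p-1)`-st root of unity in `Z/p^N`.  (`ζ = g^(p^(N-1))`, `g` a primitive root
mod `p`; `ζ^j - 1` is a unit for `0 < j < p - 1`; geometric sum.) -/
def S_TEI : Prop := ∀ (p N : ℕ) [Fact p.Prime], 0 < N → ∃ z : ZMod (p ^ N), z ^ (p - 1) = 1 ∧
  ∀ j, 0 < j → j < p - 1 → ∑ a ∈ Finset.range (p - 1), z ^ (a * j) = 0

/-- TT (Teichmueller closure).  `ex (x + y) ∈ ex x * ex y * [H,H]`.
Put `E(t) = ex (t (x+y))`.  Claim `Q(m)` for `2 ≤ m ≤ c+1`: there are `r_i ∈ J^i` (`m ≤ i ≤ c`) such that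
for all `t : ZMod (p^N)` there is `h_t ∈ H` with `h_t = E(t) * (1 + ∑_{i=m}^{c} t^i r_i)` and
`h_t ≡ (a b)^t` mod `[H,H]` (exponent `t.val`; `h^(p^N) = 1` on `H`).
`Q(2)`: `h_t = a^t b^t = ex (t x) ex (t y)` (a polynomial in `t` whose `t^i` coefficient is in `J^i`, and so is
`E(t)⁻¹ = ex (-t (x+y))`).
`Q(m) → Q(m+1)`: take `ζ` from TEI, `n_a : ℕ`, `n_a ≡ ζ^(-a) / (p-1)` mod `p^N`, and
`h'_t = ∏_{a=0}^{p-2} (h_(ζ^a t))^(n_a)`.  As polynomials in `t` modulo `t^(m+1)` (coefficient of `t^i` in `J^i`):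
`(E(ζ^a t) (1 + ζ^(a m) t^m r_m))^(n_a) ≡ E(n_a ζ^a t) (1 + n_a ζ^(a m) t^m r_m)`,
and the product is `E(∑ n_a ζ^a t) (1 + (∑ n_a ζ^(a m)) t^m r_m) = E(t)`, since `∑ n_a ζ^a = 1` and
`∑ n_a ζ^(am) = (p-1)⁻¹ ∑ ζ^(a(m-1)) = 0` as `0 < m - 1 < p - 1`.  Mod `[H,H]`:
`h'_t ≡ (ab)^(∑ n_a ζ^a t) = (ab)^t`.  `Q(c+1)` at `t = 1` is the claim.  (Model the families as
polynomials or coefficient functions `ℕ → S` with Cauchy product.) Uses EX, TEI. -/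
def S_TT : Prop := ∀ (p N c : ℕ) [Fact p.Prime], 0 < N → ∀ (S : Type) [Ring S]
  [Algebra (ZMod (p ^ N)) S] (J : Submodule (ZMod (p ^ N)) S) (H : Subgroup Sˣ), Uni p N c J H →
  ∀ x ∈ J, ∀ y ∈ J, ∀ a ∈ H, ∀ b ∈ H, (a : S) = ex p N x → (b : S) = ex p N y →
  ∃ d ∈ ⁅H, H⁆, ((a * b * d : Sˣ) : S) = ex p N (x + y)

/-- LH1: consequences of TT.  (1) closed under sums by TT, under scalars by EX. (2) conjugation. (3) the polynomial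
`ex (t x) y ex (- t x) = y + t [x,y] + ...` of degree `< p` in `t` (`c - 1 ≤ p - 2`) has values in the submodule, VDM.
(4),(5) from EX. Uses EX, TT, VDM, NOD. -/
def S_LH1 : Prop := ∀ (p N c : ℕ) [Fact p.Prime], 0 < N → ∀ (S : Type) [Ring S]
  [Algebra (ZMod (p ^ N)) S] (J : Submodule (ZMod (p ^ N)) S) (H : Subgroup Sˣ), Uni p N c J H →
  (∀ x, x ∈ LHm p N J H ↔ x ∈ LH p N J H) ∧
  (∀ x ∈ LHm p N J H, ∀ h ∈ H, (h : S) * x * ((h⁻¹ : Sˣ) : S) ∈ LHm p N J H) ∧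
  (∀ x ∈ LHm p N J H, ∀ y ∈ LHm p N J H, x * y - y * x ∈ LHm p N J H) ∧
  (∀ h ∈ H, ∃! x, x ∈ LHm p N J H ∧ ex p N x = (h : S)) ∧
  Nat.card (LHm p N J H) = Nat.card H ∧
  (∀ H1 ≤ H, LHm p N J H1 ≤ LHm p N J H ∧
    ∀ x ∈ LHm p N J H, (x ∈ LHm p N J H1 ↔ ∃ h ∈ H1, (h : S) = ex p N x))

/-- LH2: normal subgroups.  (1) if `a⁻¹ b ∈ Q` then `H1 = <a, b>` has `H1 / (H1 ∩ Q)` cyclic so
`[H1,H1] ≤ Q`; TT for `H1` (and `x, -y`) gives `ex (x - y) ∈ Q`.  Conversely apply TT to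
`H2 = <ex (x-y), ex y>`, where `ex (x - y) ∈ Q`. (2) `ex (t x) y ex (-t x) ∈ LHm Q` for all `t`,
VDM. (3) `h (ex y) h⁻¹ (ex y)⁻¹ ∈ Q` for `h = ex (t x)`, so by (1) `h y h⁻¹ - y ∈ LHm Q` for all `t`,
VDM. Uses EX, TT, VDM, NOD, LH1. -/
def S_LH2 : Prop := ∀ (p N c : ℕ) [Fact p.Prime], 0 < N → ∀ (S : Type) [Ring S]
  [Algebra (ZMod (p ^ N)) S] (J : Submodule (ZMod (p ^ N)) S) (H Q : Subgroup Sˣ), Uni p N c J H →
  Q ≤ H → (∀ h ∈ H, ∀ q ∈ Q, h * q * h⁻¹ ∈ Q) →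
  (∀ x ∈ LHm p N J H, ∀ y ∈ LHm p N J H, ∀ a b : Sˣ, (a : S) = ex p N x → (b : S) = ex p N y →
    (a⁻¹ * b ∈ Q ↔ x - y ∈ LHm p N J Q)) ∧
  (∀ x ∈ LHm p N J H, ∀ y ∈ LHm p N J Q, x * y - y * x ∈ LHm p N J Q) ∧
  (⁅H, H⁆ ≤ Q → ∀ x ∈ LHm p N J H, ∀ y ∈ LHm p N J H, x * y - y * x ∈ LHm p N J Q)

end H6.NE
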